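import Pool.Agent.Work.MP_b5407d_lbm_helper97.All
import Pool.Agent.Work.MP_b5407d_gt.Homog

/-! # The planar `L_p`-Brunn-Minkowski inequality, `0 < p < 1`, from `POS` -/

set_option autoImplicit false
open MeasureTheory

namespace Pool.LBM

theorem hE_eq_hh : hE = Pool.Agent.Work.MP_b5407d_gt.hh := rfl

theorem wE_eq_wulff : wE = Pool.Agent.Work.MP_b5407d_gt.wulff := rfl

/-- The planar `L_p`-Brunn-Minkowski inequality with its equality case, `0 < p`. -/
theorem planar_of_pos (hPOS : POS) (p : ℝ) (hp : 0 < p) (K C : Set E2)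
    (hKc : Convex ℝ K) (hKk : IsCompact K) (hKi : (interior K).Nonempty)
    (hCc : Convex ℝ C) (hCk : IsCompact C) (hCi : (interior C).Nonempty)
    (hK0 : (∫ x in K, x) = 0) (hC0 : (∫ x in C, x) = 0) (α β : ℝ) (hα : 0 < α) (hβ : 0 < β) :
    (α * (volume K).toReal ^ (p / 2) + β * (volume C).toReal ^ (p / 2) ≤
      (volume (wE fun u => (α * hE K u ^ p + β * hE C u ^ p) ^ (1 / p))).toReal ^ (p / 2)) ∧
    ((volume (wE fun u => (α * hE K u ^ p + β * hE C u ^ p) ^ (1 / p))).toReal ^ (p / 2) =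
      α * (volume K).toReal ^ (p / 2) + β * (volume C).toReal ^ (p / 2) ↔
      ∃ t : ℝ, 0 < t ∧ C = (fun x : E2 => t • x) '' K) :=
  Pool.Agent.Work.MP_b5407d_gt.general p hp
    (fun K C h1 h2 h3 h4 h5 h6 h7 h8 h9 h10 m l hm hl hml =>
      st_LPN hPOS p hp K C h1 h2 h3 h4 h5 h6 h7 h8 h9 h10 m l hm hl hml)
    K C hKc hKk hKi hCc hCk hCi hK0 hC0 α β hα hβ

/-- The planar log-Brunn-Minkowski inequality for centred bodies. -/
theorem planar_log_of_pos (hPOS : POS) (K C : Set E2)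
    (hKc : Convex ℝ K) (hKk : IsCompact K) (hKi : (interior K).Nonempty)
    (hCc : Convex ℝ C) (hCk : IsCompact C) (hCi : (interior C).Nonempty)
    (hK0 : (∫ x in K, x) = 0) (hC0 : (∫ x in C, x) = 0) (t : ℝ) (ht : t ∈ Set.Icc (0 : ℝ) 1) :
    (volume K).toReal ^ (1 - t) * (volume C).toReal ^ t ≤
      (volume (wE fun u => hE K u ^ (1 - t) * hE C u ^ t)).toReal :=
  st_LE hPOS K C hKc hKk hKi hCc hCk hCi hK0 hC0 t ht

end Pool.LBM

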