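import Pool.Agent.Work.MP_b5407d_lbm_helper97.SRCf

/-! # Block SRC: the dual vector of a source -/

set_option autoImplicit false
set_option linter.unusedSimpArgs false

open MeasureTheory Set Filter Topology

namespace Pool.LBM.SRC

open Pool.LBM.Path (mE_deriv mL_deriv mE_cont mL_cont mul_ii prim_cont pe_cont pe_pos pe_ne pu_cont
  cont_pl exp_mE_neg mE_zero mL_zero pVx_cont pVy_cont mul_mE pL_cont pX_cont pq_cont)

/-- every property of period `n` can be checked on one period -/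
lemma per_cases {n : ℕ} (Q : ℕ → Prop) (hper : ∀ i, Q (i + n) ↔ Q i) (j : ℕ) (hn : 0 < n)
    (hj : j < n) (h : ∀ r, r < n → Q (j + r)) (i : ℕ) : Q i := by
  have hmul : ∀ q i, Q (i + n * q) ↔ Q i := by
    intro q
    induction q with
    | zero => intro i; simp
    | succ q ih => intro i; rw [Nat.mul_succ, ← add_assoc, hper, ih]
  have hmod : ∀ i, Q i ↔ Q (i % n) := by
    intro i
    conv_lhs => rw [← Nat.mod_add_div i n]
    exact hmul _ _
  rw [hmod]
  have h1 := h ((i + (n - j)) % n) (Nat.mod_lt _ hn)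
  rw [hmod, Nat.add_mod_mod, show j + (i + (n - j)) = i + n by omega, Nat.add_mod_right] at h1
  exact h1

section
variable {n : ℕ} {θ P : ℕ → R2} {ℓ : ℕ → ℝ}

/-- the mass of the source edge -/
lemma mass_src (hPC : Stmt_PC) (hGR : Stmt_GR) (hG : Gon n θ P ℓ) (j : ℕ) (hj : j < n) (l : R2)
    (C κ η : ℝ)
    (hC : C * pd (dt l (θ j)) (dt l (rt (θ j))) (As θ P j) (Bs P j (rt (θ j)) 0) (n - 1) =
      pP (dt l (θ j)) (dt l (rt (θ j))) (As θ P j) (Bs P j (rt (θ j)) 0) (n - 1))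
    (hcl : dt (θ j) (Wt θ P n j l C κ η ((n - 1 : ℕ) : ℝ)) = κ) :
    dms θ P ℓ l (-θ j) (Wj θ P n j l C κ η) j =
      (pc (dt l (θ j)) (dt l (rt (θ j))) (As θ P j) (Bs P j (rt (θ j)) 0) (n - 1) C κ η -
        dt (θ j) (P j)) * EI (ex l) θ P ℓ j - GJ n θ P l := by
  set v := dt l (θ j) with hv
  set w := dt l (rt (θ j)) with hw
  have hl : v • θ j + w • rt (θ j) = l := (base_l hG j l).symm
  have hβ := base_cr hG j
  have hn := hG.three
  -- path facts
  obtain ⟨-, -, h3⟩ := hPC (n - 1) (As θ P j) (Bs P j (rt (θ j)) 0) v w C κ η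
    (As_zero hG j) (As_end hG j)
  rw [hC, sub_self, mul_zero, sub_zero] at h3
  have hJ := fr_J hGR hG j (rt (θ j)) 0 v w
  rw [hβ, one_mul, hl] at hJ
  have hm := src_int hG j (rt (θ j)) 0 v w (by rw [hβ]; exact one_pos) (fun _ _ => 1)
  rw [hβ, one_mul, hl] at hm
  simp only [one_mul] at hm
  have hm' : EI (ex l) θ P ℓ j = ep θ P j 0 v w *
      ∫ s in (Bs P j (rt (θ j)) 0 0)..(Bs P j (rt (θ j)) 0 (n - 1)), Real.exp (-(w * s)) := hm
  set U := ∫ s in (Bs P j (rt (θ j)) 0 0)..(Bs P j (rt (θ j)) 0 (n - 1)), Real.exp (-(w * s))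
    with hU
  set Y := ∫ t in (0 : ℝ)..((n - 1 : ℕ) : ℝ), pu v w (As θ P j) (Bs P j (rt (θ j)) 0) C t *
    dpl (Bs P j (rt (θ j)) 0) t with hY
  have he0 : pe v w (As θ P j) (Bs P j (rt (θ j)) 0) 0 =
      Real.exp (-(w * Bs P j (rt (θ j)) 0 0)) := by
    unfold pe
    rw [Pool.LBM.Path.pl_zero, Pool.LBM.Path.pl_zero, As_zero hG]; simp
  have hem : pe v w (As θ P j) (Bs P j (rt (θ j)) 0) ((n - 1 : ℕ) : ℝ) =
      Real.exp (-(w * Bs P j (rt (θ j)) 0 (n - 1))) := by
    unfold pe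
    rw [Pool.LBM.Path.pl_nat, Pool.LBM.Path.pl_nat, As_end hG]; simp
  have hUw : w * U = pe v w (As θ P j) (Bs P j (rt (θ j)) 0) 0 -
      pe v w (As θ P j) (Bs P j (rt (θ j)) 0) ((n - 1 : ℕ) : ℝ) := by
    have h5 : U = mE w (Bs P j (rt (θ j)) 0 (n - 1)) - mE w (Bs P j (rt (θ j)) 0 0) := by
      rw [hU]; unfold mE
      rw [intervalIntegral.integral_interval_sub_left]
      · exact (by fun_prop : Continuous fun s : ℝ => Real.exp (-(w * s))).intervalIntegrable _ _
      · exact (by fun_prop : Continuous fun s : ℝ => Real.exp (-(w * s))).intervalIntegrable _ _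
    rw [h5, he0, hem, mul_sub, mul_mE, mul_mE]; ring
  -- velocities at the ends
  have hW1 : Wj θ P n j l C κ η (j + 1) = Wt θ P n j l C κ η 0 := by
    have := Wj_path θ P n j l C κ η hj 0 (by omega)
    simpa using this
  have hW0 := Wj_src θ P n j l C κ η hj
  have hy0 : dt (rt (θ j)) (Wt θ P n j l C κ η 0) = -(η - Y) := by
    rw [Wt_y hG]
    unfold pVy
    rw [intervalIntegral.integral_symm, hY]; ring
  have hym : dt (rt (θ j)) (Wt θ P n j l C κ η ((n - 1 : ℕ) : ℝ)) = -η := by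
    rw [Wt_y hG]
    unfold pVy
    rw [intervalIntegral.integral_same]; ring
  have hx0 : dt (θ j) (Wt θ P n j l C κ η 0) = κ := by
    rw [Wt_x hG]; unfold pVx; rw [intervalIntegral.integral_same]; ring
  have hc0 := ub_const hPC hG j l C κ η hcl 0 ⟨le_rfl, Nat.cast_nonneg _⟩
  have hcm := ub_const hPC hG j l C κ η hcl ((n - 1 : ℕ) : ℝ) ⟨Nat.cast_nonneg _, le_rfl⟩
  rw [Pool.LBM.Path.pl_zero, As_zero hG, dt_decomp hG j l (Wt θ P n j l C κ η 0), hx0, hy0,
    ← hv, ← hw] at hc0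
  rw [Pool.LBM.Path.pl_nat, As_end hG] at hcm
  set c := pc v w (As θ P j) (Bs P j (rt (θ j)) 0) (n - 1) C κ η with hc
  have hcm' := hcm
  rw [dt_decomp hG j l (Wt θ P n j l C κ η ((n - 1 : ℕ) : ℝ)), hcl, hym, ← hv, ← hw] at hcm'
  have hu0 : ub θ P j l C 0 = C / pe v w (As θ P j) (Bs P j (rt (θ j)) 0) 0 := by
    unfold ub pu pX
    rw [intervalIntegral.integral_same, sub_zero]
  -- the edge integral
  have hE : EI (fun x => ex l x * (dt (-θ j) x + dt l (Wj θ P n j l C κ η j))) θ P ℓ j =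
      (-dt (θ j) (P j) + dt l (Wt θ P n j l C κ η ((n - 1 : ℕ) : ℝ))) * EI (ex l) θ P ℓ j := by
    unfold EI
    rw [← intervalIntegral.integral_const_mul]
    apply intervalIntegral.integral_congr
    intro s _
    simp only
    rw [neg_dt, dt_add, dt_smul, dt_self_rt, hW0]; ring
  have hexP : ex l (P (j + 1)) = ep θ P j 0 v w *
      pe v w (As θ P j) (Bs P j (rt (θ j)) 0) 0 := by
    have h6 := ex_frame θ P j (rt (θ j)) 0 v w (P (j + 1))
    rw [hl] at h6
    rw [h6, he0]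
    have h7 : Xf θ P j (P (j + 1)) = 0 := by
      have := As_zero hG j; unfold As at this; simpa using this
    have h8 : Yf (rt (θ j)) 0 (P (j + 1)) = Bs P j (rt (θ j)) 0 0 := by
      unfold Bs; simp
    rw [h7, h8]; simp
  unfold dms
  rw [hE, hW1, hW0, dt_sub, hy0, hym, hexP, hm', ← hJ]
  have hne : pe v w (As θ P j) (Bs P j (rt (θ j)) 0) 0 ≠ 0 := pe_ne _ _ _ _ _
  have hq : C / pe v w (As θ P j) (Bs P j (rt (θ j)) 0) 0 = ub θ P j l C ((n - 1 : ℕ) : ℝ) - w * Y := by
    rw [← hu0]; linarith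
  rw [hq] at h3
  rw [← h3]
  linear_combination (ep θ P j 0 v w * U) * hcm + (-(ep θ P j 0 v w * Y)) * hUw

/-- integrals with an indicator -/
lemma ind_int (r m : ℕ) (hr : r + 1 ≤ m) (J : ℝ) (D : ℕ → ℝ) (g : ℝ → ℝ) (hg : Continuous g) :
    IntervalIntegrable (fun t => (if (r : ℝ) + 1 ≤ t then J else 0) * g t * dpl D t) volume 0 m ∧
    ∫ t in (0 : ℝ)..m, (if (r : ℝ) + 1 ≤ t then J else 0) * g t * dpl D t =
      J * ∫ t in ((r : ℝ) + 1)..m, g t * dpl D t := by
  have hm : (r : ℝ) + 1 ≤ m := by exact_mod_cast hr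
  have hr0 : (0 : ℝ) ≤ (r : ℝ) + 1 := by positivity
  have e1 : ∀ᵐ t ∂(volume : Measure ℝ), t ∈ uIoc (0 : ℝ) ((r : ℝ) + 1) →
      (0 : ℝ) = (if (r : ℝ) + 1 ≤ t then J else 0) * g t * dpl D t := by
    have h0 : ∀ᵐ s ∂(volume : Measure ℝ), s ≠ ((r : ℝ) + 1) := by
      simp [ae_iff, measure_singleton]
    filter_upwards [h0] with s hs hmem
    rw [uIoc_of_le hr0] at hmem
    rw [if_neg (not_le.2 (lt_of_le_of_ne hmem.2 hs))]; ring
  have e2 : ∀ t ∈ uIcc ((r : ℝ) + 1) (m : ℝ), J * (g t * dpl D t) =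
      (if (r : ℝ) + 1 ≤ t then J else 0) * g t * dpl D t := by
    intro t ht
    rw [uIcc_of_le hm] at ht
    rw [if_pos ht.1]; ring
  have i1 : IntervalIntegrable (fun t => (if (r : ℝ) + 1 ≤ t then J else 0) * g t * dpl D t)
      volume 0 ((r : ℝ) + 1) := by
    refine (intervalIntegrable_const (c := (0 : ℝ))).congr_ae ?_
    rw [Filter.EventuallyEq, ae_restrict_iff' measurableSet_uIoc]
    exact e1
  have i2 : IntervalIntegrable (fun t => (if (r : ℝ) + 1 ≤ t then J else 0) * g t * dpl D t)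
      volume ((r : ℝ) + 1) m := by
    refine ((mul_ii D hg ((r : ℝ) + 1) m).const_mul J).congr fun t ht => ?_
    exact e2 t (uIoc_subset_uIcc ht)
  refine ⟨i1.trans i2, ?_⟩
  rw [← intervalIntegral.integral_add_adjacent_intervals i1 i2,
    ← intervalIntegral.integral_congr_ae e1, ← intervalIntegral.integral_const_mul,
    intervalIntegral.integral_congr e2]
  simp

/-- the target edge in a frame -/
lemma target_std (hG : Gon n θ P ℓ) (j i : ℕ) (hj : j < n) (hi : i < n)
    (hβ : 0 < cr (θ j) (θ i)) :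
    Std (n - 1) ((i + (n - 1 - j)) % n) (As θ P j) (Bs P j (θ i) (dt (θ i) (P i))) := by
  have hn := hG.three
  set r := (i + (n - 1 - j)) % n with hr
  have hrn : r < n := Nat.mod_lt _ (by omega)
  -- indices
  have hidx : (j + 1 + r) % n = i % n := by
    rw [hr, Nat.add_mod_mod, show j + 1 + (i + (n - 1 - j)) = i + n by omega, Nat.add_mod_right]
  have hperθ : ∀ a b, a % n = b % n → θ a = θ b := fun a b hab => by
    have hp : Function.Periodic θ n := hG.perθ
    rw [← hp.map_mod_nat a, ← hp.map_mod_nat b, hab]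
  have hperP : ∀ a b, a % n = b % n → P a = P b := fun a b hab => by
    have hp : Function.Periodic P n := hG.perP
    rw [← hp.map_mod_nat a, ← hp.map_mod_nat b, hab]
  have hθi : θ (j + 1 + r) = θ i := hperθ _ _ hidx
  have hPi : P (j + 1 + r) = P i := hperP _ _ hidx
  have hrm : r < n - 1 := by
    by_contra hcon
    have hr' : r = n - 1 := by omega
    have h1 : θ (j + 1 + r) = θ j := by
      rw [hr', per_idx hG, hG.perθ]
    rw [h1] at hθi
    rw [← hθi] at hβ
    have : cr (θ j) (θ j) = 0 := by unfold cr; ring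
    linarith
  have hm : Bs P j (θ i) (dt (θ i) (P i)) (n - 1) = Yf (θ i) (dt (θ i) (P i)) (P j) := by
    unfold Bs; rw [per_idx hG, hG.perP]
  have h0 : Bs P j (θ i) (dt (θ i) (P i)) 0 = Yf (θ i) (dt (θ i) (P i)) (P j) -
      cr (θ j) (θ i) * ℓ j := by
    unfold Bs Yf
    rw [add_zero, hG.edge j, dt_add, dt_smul, dt_rt']; ring
  have hb0 : Bs P j (θ i) (dt (θ i) (P i)) r = 0 := by
    unfold Bs Yf; rw [hPi]; ring
  have hb1 : Bs P j (θ i) (dt (θ i) (P i)) (r + 1) = 0 := by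
    have h := Bs_step hG j (θ i) (dt (θ i) (P i)) r
    rw [hθi, hb0] at h
    have : cr (θ i) (θ i) = 0 := by unfold cr; ring
    rw [this] at h; linarith
  refine ⟨hrm, ?_, As_zero hG j, As_end hG j, ?_, hb0, hb1, ?_⟩
  · intro a b c hab hbc hcm
    have h := hG.conv (j + 1 + a) (j + 1 + b) (j + 1 + c) (by omega) (by omega) (by omega)
    have h2 := mul_pos hβ h
    rw [← lagr] at h2
    unfold As Bs Xf Yf
    rw [dt_sub, dt_sub, dt_sub, dt_sub] at h2
    linarith
  · rw [hm, h0]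
    have := mul_pos hβ (hG.pos j)
    linarith
  · have h := As_step hG j r
    rw [hθi] at h
    have := mul_pos (hG.pos (j + 1 + r)) hβ
    linarith

/-- positivity of the entries on one side -/
lemma target_pos (hPOS : POS) (hPC : Stmt_PC) (hPV : Stmt_PV) (hPY : Stmt_PY) (hGR : Stmt_GR)
    (hGN : Stmt_GN) (hG : Gon n θ P ℓ) (j : ℕ) (hj : j < n) (l : R2) (C κ η : ℝ)
    (hC : C * pd (dt l (θ j)) (dt l (rt (θ j))) (As θ P j) (Bs P j (rt (θ j)) 0) (n - 1) =
      pP (dt l (θ j)) (dt l (rt (θ j))) (As θ P j) (Bs P j (rt (θ j)) 0) (n - 1))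
    (hcl : dt (θ j) (Wt θ P n j l C κ η ((n - 1 : ℕ) : ℝ)) = κ)
    (i : ℕ) (hi : i < n) (hβ : 0 < cr (θ j) (θ i))
    (hbar : ∑ k ∈ Finset.range n, dt (θ k) (Wj θ P n j l C κ η k) *
        EI (fun x => Yf (θ i) (dt (θ i) (P i)) x * ex l x) θ P ℓ k +
      (∫ x in GP n θ P, Xf θ P j x * Yf (θ i) (dt (θ i) (P i)) x * ex l x) -
      pc (dt l (θ j)) (dt l (rt (θ j))) (As θ P j) (Bs P j (rt (θ j)) 0) (n - 1) C κ η *
        (∫ x in GP n θ P, Yf (θ i) (dt (θ i) (P i)) x * ex l x) = 0) :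
    0 ≤ dt (θ i) (Wj θ P n j l C κ η i) := by
  have hn := hG.three
  set hs := dt (θ i) (P i) with hhs
  set w := dt l (rt (θ j)) / cr (θ j) (θ i) with hw
  set v := dt l (θ j) - w * dt (θ i) (θ j) with hv
  have hl : v • θ j + w • θ i = l := by
    have e1 : ∀ z, dt z (v • θ j + w • θ i) = dt z l := by
      intro z
      rw [dt_add, dt_smul, dt_smul, dt_decomp hG j z (θ i), dt_decomp hG j z l,
        dt_comm (θ j) (θ i), dt_comm (rt (θ j)) (θ i), dt_rt' (θ j) (θ i), dt_comm (θ j) l,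
        dt_comm (rt (θ j)) l]
      have : w * cr (θ j) (θ i) = dt l (rt (θ j)) := by rw [hw]; field_simp
      rw [hv]
      linear_combination (dt z (rt (θ j))) * this
    have e2 := e1 (1, 0)
    have e3 := e1 (0, 1)
    simp only [dt, one_mul, zero_mul, add_zero, zero_add] at e2 e3
    exact Prod.ext e2 e3
  have hF := fr_exists hG j (θ i) hs v w C κ η hβ (by rw [hl]; exact hcl)
  have hpc := pc_frame hG j (θ i) hs v w C κ η
  rw [hl] at hF hpc
  set C' := sr θ P j (θ i) hs w * C with hC'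
  set η' := -(dt (θ i) (θ j) * κ) + cr (θ j) (θ i) * η with hη'
  set A := As θ P j with hA
  set B := Bs P j (θ i) hs with hB
  -- `C' d' = P'`
  have hvb := fr_vol hGR hPV hG hj (fr_base hG j l C κ η) hcl
  rw [hC, sub_self, mul_zero, base_cr hG, one_mul] at hvb
  have hvf := fr_vol hGR hPV hG hj hF hcl
  rw [hpc, hvb, mul_zero] at hvf
  have hep := ep_pos θ P j hs v w
  have hCd : C' * pd v w A B (n - 1) = pP v w A B (n - 1) := by
    have := (mul_eq_zero.1 hvf.symm).resolve_left hep.ne'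
    linarith
  -- barycentre
  have hyf := fr_bary hGR hPY hG hj hF hcl
  rw [hpc, hbar, mul_zero] at hyf
  have hη : pJ v w A B (n - 1) * η' = -∫ t in (0 : ℝ)..((n - 1 : ℕ) : ℝ), pL v w A B t *
      ub θ P j l C t * dpl B t := by
    have := (mul_eq_zero.1 hyf.symm).resolve_left hep.ne'
    linarith
  have hStd := target_std hG j i hj hi hβ
  set r := (i + (n - 1 - j)) % n with hr
  have hrm := hStd.lt
  have hpos := hPOS (n - 1) r A B v w hStd
  have hd := fr_d_pos hGR hGN hG j (θ i) hs v w hβ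
  have hJ : 0 < pJ v w A B (n - 1) := by
    have h1 := fr_J hGR hG j (θ i) hs v w
    rw [hl] at h1
    have h2 : 0 < GJ n θ P l := int_pos hGN hG (ex l) (ex_cont l) (ex_pos l)
    have h3 : 0 < ep θ P j hs v w * pJ v w A B (n - 1) := by
      rw [h1]; exact mul_pos hβ h2
    exact (mul_pos_iff_of_pos_left hep).1 h3
  have hu : Continuous (ub θ P j l C) := pu_cont _ _ _ _ _
  -- the entry
  have hWi : Wj θ P n j l C κ η i = Wt θ P n j l C κ η (r : ℝ) := rfl
  have hidx : (j + 1 + r) % n = i % n := by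
    rw [hr, Nat.add_mod_mod, show j + 1 + (i + (n - 1 - j)) = i + n by omega, Nat.add_mod_right]
  have hθi : θ (j + 1 + r) = θ i := by
    have hp : Function.Periodic θ n := hG.perθ
    rw [← hp.map_mod_nat (j + 1 + r), ← hp.map_mod_nat i, hidx]
  have hseg := Wt_seg hG j l C κ η r ((r : ℝ) + 1) ⟨by linarith, le_rfl⟩
  have hdt : dt (θ i) (Wt θ P n j l C κ η (r : ℝ)) = dt (θ i) (Wt θ P n j l C κ η ((r : ℝ) + 1)) := by
    rw [hseg, dt_add, dt_smul, hθi, dt_self_rt]; ring
  have hy := hF.y ((r : ℝ) + 1)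
  have hyv : dt (θ i) (Wj θ P n j l C κ η i) =
      -η' + ∫ t in ((r : ℝ) + 1)..((n - 1 : ℕ) : ℝ), ub θ P j l C t * dpl B t := by
    rw [hWi, hdt]
    unfold pVy at hy
    simp only [hF.u] at hy
    rw [intervalIntegral.integral_symm] at hy
    linarith
  -- the integral of `R u dy`
  obtain ⟨i1, i2⟩ := ind_int r (n - 1) (by omega) (pJ v w A B (n - 1)) B (ub θ P j l C) hu
  have hR : pJ v w A B (n - 1) * dt (θ i) (Wj θ P n j l C κ η i) =
      ∫ t in (0 : ℝ)..((n - 1 : ℕ) : ℝ), pR v w A B (n - 1) r t * ub θ P j l C t * dpl B t := by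
    have h1 : (∫ t in (0 : ℝ)..((n - 1 : ℕ) : ℝ), pR v w A B (n - 1) r t * ub θ P j l C t *
        dpl B t) = (∫ t in (0 : ℝ)..((n - 1 : ℕ) : ℝ), pL v w A B t * ub θ P j l C t * dpl B t) +
        ∫ t in (0 : ℝ)..((n - 1 : ℕ) : ℝ), (if (r : ℝ) + 1 ≤ t then pJ v w A B (n - 1) else 0) *
          ub θ P j l C t * dpl B t := by
      have j0 : IntervalIntegrable (fun t => pL v w A B t * ub θ P j l C t * dpl B t) volume 0
          ((n - 1 : ℕ) : ℝ) := mul_ii B ((pL_cont v w A B).mul hu) _ _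
      rw [← intervalIntegral.integral_add j0 i1]
      apply intervalIntegral.integral_congr
      intro t _
      simp only [pR]
      ring
    rw [h1, i2, hyv, mul_add, mul_neg, hη, neg_neg]
  have hNM : (∫ t in (0 : ℝ)..((n - 1 : ℕ) : ℝ), pR v w A B (n - 1) r t * ub θ P j l C t *
      dpl B t) = C' * pN v w A B (n - 1) r - pM v w A B (n - 1) r := by
    have hinv : Continuous (fun t => (pe v w A B t)⁻¹) :=
      (pe_cont v w A B).inv₀ (pe_ne v w A B)
    have hXinv : Continuous (fun t => pX v w A B t * (pe v w A B t)⁻¹) :=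
      (pX_cont v w A B).mul hinv
    have j1 : IntervalIntegrable (fun t => pR v w A B (n - 1) r t / pe v w A B t * dpl B t)
        volume 0 ((n - 1 : ℕ) : ℝ) := by
      have k1 := (ind_int r (n - 1) (by omega) (pJ v w A B (n - 1)) B _ hinv).1
      have k2 := mul_ii B ((pL_cont v w A B).mul hinv) 0 ((n - 1 : ℕ) : ℝ)
      refine (k2.add k1).congr fun t _ => ?_
      simp only [pR, Pi.mul_apply, Pi.add_apply]
      rw [div_eq_mul_inv]; ring
    have j2 : IntervalIntegrable (fun t => pX v w A B t * pR v w A B (n - 1) r t /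
        pe v w A B t * dpl B t) volume 0 ((n - 1 : ℕ) : ℝ) := by
      have k1 := (ind_int r (n - 1) (by omega) (pJ v w A B (n - 1)) B _ hXinv).1
      have k2 := mul_ii B ((pL_cont v w A B).mul hXinv) 0 ((n - 1 : ℕ) : ℝ)
      refine (k2.add k1).congr fun t _ => ?_
      simp only [pR, Pi.mul_apply, Pi.add_apply]
      rw [div_eq_mul_inv]; ring
    unfold pN pM
    rw [← intervalIntegral.integral_const_mul, ← intervalIntegral.integral_sub (j1.const_mul _) j2]
    apply intervalIntegral.integral_congr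
    intro t _
    simp only
    rw [← hF.u t]
    unfold pu
    ring
  rw [hNM] at hR
  have h5 : 0 ≤ pd v w A B (n - 1) * (pJ v w A B (n - 1) * dt (θ i) (Wj θ P n j l C κ η i)) := by
    rw [hR]
    have : pd v w A B (n - 1) * (C' * pN v w A B (n - 1) r - pM v w A B (n - 1) r) =
        pP v w A B (n - 1) * pN v w A B (n - 1) r - pd v w A B (n - 1) * pM v w A B (n - 1) r := by
      rw [← hCd]; ring
    rw [this]; linarith
  exact nonneg_of_mul_nonneg_right (nonneg_of_mul_nonneg_right h5 hd) hJ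

/-! ## the Dual structure -/

lemma dII_lin (hG : Gon n θ P ℓ) (hGN : Stmt_GN) (l lam : R2) (W : ℕ → R2) (F1 F2 : R2 → ℝ)
    (h1 : Continuous F1) (h2 : Continuous F2) (a b c : ℝ) :
    dII n θ P ℓ l lam W (fun x => a + b * F1 x + c * F2 x) =
      a * dII n θ P ℓ l lam W (fun _ => 1) + b * dII n θ P ℓ l lam W F1 +
        c * dII n θ P ℓ l lam W F2 := by
  have hE : ∀ k, EI (fun x => (a + b * F1 x + c * F2 x) * ex l x) θ P ℓ k =
      a * EI (fun x => 1 * ex l x) θ P ℓ k + b * EI (fun x => F1 x * ex l x) θ P ℓ k +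
        c * EI (fun x => F2 x * ex l x) θ P ℓ k := by
    intro k
    have hγ : Continuous (fun s : ℝ => P k + s • rt (θ k)) := by fun_prop
    have c0 : Continuous (fun s : ℝ => 1 * ex l (P k + s • rt (θ k))) := by
      exact ((continuous_const.mul (ex_cont l)).comp hγ : _)
    have c1 : Continuous (fun s : ℝ => F1 (P k + s • rt (θ k)) * ex l (P k + s • rt (θ k))) :=
      (h1.mul (ex_cont l)).comp hγ
    have c2 : Continuous (fun s : ℝ => F2 (P k + s • rt (θ k)) * ex l (P k + s • rt (θ k))) :=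
      (h2.mul (ex_cont l)).comp hγ
    unfold EI
    rw [← intervalIntegral.integral_const_mul, ← intervalIntegral.integral_const_mul,
      ← intervalIntegral.integral_const_mul,
      ← intervalIntegral.integral_add ((c0.intervalIntegrable _ _).const_mul _)
        ((c1.intervalIntegrable _ _).const_mul _),
      ← intervalIntegral.integral_add (((c0.intervalIntegrable _ _).const_mul _).add
        ((c1.intervalIntegrable _ _).const_mul _)) ((c2.intervalIntegrable _ _).const_mul _)]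
    apply intervalIntegral.integral_congr
    intro s _
    simp only
    ring
  have d0 : IntegrableOn (fun x => 1 * dt lam x * ex l x) (GP n θ P) :=
    int_on hGN hG _ (by fun_prop)
  have d1 : IntegrableOn (fun x => F1 x * dt lam x * ex l x) (GP n θ P) :=
    int_on hGN hG _ ((h1.mul (dt_cont lam)).mul (ex_cont l))
  have d2 : IntegrableOn (fun x => F2 x * dt lam x * ex l x) (GP n θ P) :=
    int_on hGN hG _ ((h2.mul (dt_cont lam)).mul (ex_cont l))
  have hA : (∫ x in GP n θ P, (a + b * F1 x + c * F2 x) * dt lam x * ex l x) =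
      a * (∫ x in GP n θ P, 1 * dt lam x * ex l x) + b * (∫ x in GP n θ P, F1 x * dt lam x * ex l x) +
        c * (∫ x in GP n θ P, F2 x * dt lam x * ex l x) := by
    have d01 : IntegrableOn (fun x => a * (1 * dt lam x * ex l x) + b * (F1 x * dt lam x * ex l x))
      (GP n θ P) := (d0.const_mul _).add (d1.const_mul _)
    rw [← integral_const_mul, ← integral_const_mul, ← integral_const_mul,
      ← integral_add (d0.const_mul _) (d1.const_mul _),
      ← integral_add d01 (d2.const_mul _)]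
    congr 1
    funext x
    ring
  unfold dII
  rw [hA]
  simp only [hE, mul_add, Finset.mul_sum, Finset.sum_add_distrib]
  have e : ∀ (t : ℝ) (f : ℕ → ℝ) (g : ℕ → ℝ), ∑ k ∈ Finset.range n, f k * (t * g k) =
      ∑ k ∈ Finset.range n, t * (f k * g k) := by
    intro t f g; apply Finset.sum_congr rfl; intro k _; ring
  rw [e, e, e]
  ring

end

end Pool.LBM.SRC

open Pool.LBM.SRC in
/-- Block SRC -/
theorem Pool.LBM.blk_SRC (hPC : Pool.LBM.Stmt_PC) (hPV : Pool.LBM.Stmt_PV)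
    (hPX : Pool.LBM.Stmt_PX) (hPY : Pool.LBM.Stmt_PY) (hGR : Pool.LBM.Stmt_GR)
    (hGN : Pool.LBM.Stmt_GN) : Pool.LBM.Stmt_SRC := by
  intro hPOS n θ P ℓ l hG hCen j hj
  have hn := hG.three
  set v := Pool.LBM.dt l (θ j) with hv
  set w := Pool.LBM.dt l (Pool.LBM.rt (θ j)) with hw
  set A := As θ P j with hA
  set B := Bs P j (Pool.LBM.rt (θ j)) 0 with hB
  have hl : v • θ j + w • Pool.LBM.rt (θ j) = l := (base_l hG j l).symm
  have hβ := base_cr hG j
  have hd : 0 < Pool.LBM.pd v w A B (n - 1) :=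
    fr_d_pos hGR hGN hG j _ 0 v w (by rw [hβ]; exact one_pos)
  have hGJ : 0 < Pool.LBM.GJ n θ P l := int_pos hGN hG (Pool.LBM.ex l) (ex_cont l) (ex_pos l)
  have hJ : 0 < Pool.LBM.pJ v w A B (n - 1) := by
    have h1 := fr_J hGR hG j (Pool.LBM.rt (θ j)) 0 v w
    rw [hl, hβ, one_mul] at h1
    have h3 : 0 < ep θ P j 0 v w * Pool.LBM.pJ v w A B (n - 1) := by rw [h1]; exact hGJ
    exact (mul_pos_iff_of_pos_left (ep_pos θ P j 0 v w)).1 h3
  set C := Pool.LBM.pP v w A B (n - 1) / Pool.LBM.pd v w A B (n - 1) with hCdef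
  have hC : C * Pool.LBM.pd v w A B (n - 1) = Pool.LBM.pP v w A B (n - 1) := by
    rw [hCdef]; field_simp
  set κ : ℝ := ((∫ t in (0 : ℝ)..((n - 1 : ℕ) : ℝ), Pool.LBM.mL v (Pool.LBM.pl A t) *
      Pool.LBM.pu v w A B C t * Pool.LBM.dpl B t) -
    (∫ t in (0 : ℝ)..((n - 1 : ℕ) : ℝ), Pool.LBM.pq v w A B t *
      Pool.LBM.pVx v w A B C 0 t * Pool.LBM.dpl A t)) / Pool.LBM.pJ v w A B (n - 1) with hκ
  set η : ℝ := -(∫ t in (0 : ℝ)..((n - 1 : ℕ) : ℝ), Pool.LBM.pL v w A B t *
      Pool.LBM.pu v w A B C t * Pool.LBM.dpl B t) / Pool.LBM.pJ v w A B (n - 1) with hη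
  -- closing
  have hclx : Pool.LBM.pVx v w A B C κ ((n - 1 : ℕ) : ℝ) = -κ := by
    have h1 := (hPC (n - 1) A B v w C κ η (As_zero hG j) (As_end hG j)).1
    unfold Pool.LBM.pVx
    rw [h1, hC]; ring
  have hcl : Pool.LBM.dt (θ j) (Wt θ P n j l C κ η ((n - 1 : ℕ) : ℝ)) = κ := closing_x hG hclx
  have hFb := fr_base hG j l C κ η
  set c := Pool.LBM.pc v w A B (n - 1) C κ η with hc
  -- barycentre integrals
  have hcen : ∀ z : Pool.LBM.R2, ∫ x in Pool.LBM.GP n θ P, Pool.LBM.dt z x * Pool.LBM.ex l x = 0 := by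
    intro z
    have e : ∀ x : Pool.LBM.R2, Pool.LBM.dt z x * Pool.LBM.ex l x =
        z.1 * (x.1 * Pool.LBM.ex l x) + z.2 * (x.2 * Pool.LBM.ex l x) := by
      intro x; unfold Pool.LBM.dt; ring
    simp only [e]
    rw [integral_add ((int_on hGN hG _ (by fun_prop)).const_mul _)
      ((int_on hGN hG _ (by fun_prop)).const_mul _), integral_const_mul, integral_const_mul,
      hCen.1, hCen.2]
    ring
  have hXint : ∫ x in Pool.LBM.GP n θ P, Xf θ P j x * Pool.LBM.ex l x =
      Pool.LBM.dt (θ j) (P j) * Pool.LBM.GJ n θ P l := by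
    have e : ∀ x : Pool.LBM.R2, Xf θ P j x * Pool.LBM.ex l x =
        Pool.LBM.dt (θ j) (P j) * Pool.LBM.ex l x - Pool.LBM.dt (θ j) x * Pool.LBM.ex l x := by
      intro x; unfold Xf; ring
    simp only [e]
    rw [integral_sub ((int_on hGN hG _ (by fun_prop)).const_mul _)
      (int_on hGN hG _ (by fun_prop)), integral_const_mul, hcen, sub_zero]
    rfl
  have hYint : ∀ (ν : Pool.LBM.R2) (hs : ℝ), ∫ x in Pool.LBM.GP n θ P, Yf ν hs x * Pool.LBM.ex l x =
      hs * Pool.LBM.GJ n θ P l := by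
    intro ν hs
    have e : ∀ x : Pool.LBM.R2, Yf ν hs x * Pool.LBM.ex l x =
        hs * Pool.LBM.ex l x - Pool.LBM.dt ν x * Pool.LBM.ex l x := by
      intro x; unfold Yf; ring
    simp only [e]
    rw [integral_sub ((int_on hGN hG _ (by fun_prop)).const_mul _)
      (int_on hGN hG _ (by fun_prop)), integral_const_mul, hcen, sub_zero]
    rfl
  set W := Wj θ P n j l C κ η with hW
  -- volume
  have hvol := fr_vol hGR hPV hG hj hFb hcl
  rw [hC, sub_self, mul_zero, hβ, one_mul, hXint] at hvol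
  have hsum1 : ∑ k ∈ Finset.range n, Pool.LBM.dt (θ k) (W k) * Pool.LBM.EI (Pool.LBM.ex l) θ P ℓ k =
      (c - Pool.LBM.dt (θ j) (P j)) * Pool.LBM.GJ n θ P l := by linarith
  -- x barycentre
  have hbx := fr_barx hGR hPX hG hj hFb hcl
  have hRx : (∫ t in (0 : ℝ)..((n - 1 : ℕ) : ℝ), Pool.LBM.mL v (Pool.LBM.pl A t) *
        Pool.LBM.pu v w A B C t * Pool.LBM.dpl B t) -
      (∫ t in (0 : ℝ)..((n - 1 : ℕ) : ℝ), Pool.LBM.pq v w A B t *
        Pool.LBM.pVx v w A B C κ t * Pool.LBM.dpl A t) = 0 := by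
    have e1 : (∫ t in (0 : ℝ)..((n - 1 : ℕ) : ℝ), Pool.LBM.pq v w A B t *
        Pool.LBM.pVx v w A B C κ t * Pool.LBM.dpl A t) =
        κ * Pool.LBM.pJ v w A B (n - 1) + ∫ t in (0 : ℝ)..((n - 1 : ℕ) : ℝ),
          Pool.LBM.pq v w A B t * Pool.LBM.pVx v w A B C 0 t * Pool.LBM.dpl A t := by
      have i1 := Pool.LBM.Path.mul_ii A (Pool.LBM.Path.pq_cont v w A B) 0 ((n - 1 : ℕ) : ℝ)
      have i2 : IntervalIntegrable (fun t => Pool.LBM.pq v w A B t * Pool.LBM.pVx v w A B C 0 t *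
        Pool.LBM.dpl A t) volume 0 ((n - 1 : ℕ) : ℝ) :=
        Pool.LBM.Path.mul_ii A ((Pool.LBM.Path.pq_cont v w A B).mul
        (Pool.LBM.Path.pVx_cont v w A B C 0)) 0 ((n - 1 : ℕ) : ℝ)
      have e2 : κ * Pool.LBM.pJ v w A B (n - 1) = ∫ t in (0 : ℝ)..((n - 1 : ℕ) : ℝ),
          (-κ) * (Pool.LBM.pq v w A B t * Pool.LBM.dpl A t) := by
        rw [intervalIntegral.integral_const_mul]
        unfold Pool.LBM.pJ Pool.LBM.pL; ring
      rw [e2, ← intervalIntegral.integral_add (i1.const_mul _) i2]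
      apply intervalIntegral.integral_congr
      intro t _
      simp only [Pool.LBM.pVx]
      ring
    rw [e1, hκ]
    field_simp
    ring
  rw [hRx, mul_zero, hβ, one_mul, hXint] at hbx
  -- y barycentre
  have hby := fr_bary hGR hPY hG hj hFb hcl
  have hRy : Pool.LBM.pJ v w A B (n - 1) * η + (∫ t in (0 : ℝ)..((n - 1 : ℕ) : ℝ),
      Pool.LBM.pL v w A B t * ub θ P j l C t * Pool.LBM.dpl B t) = 0 := by
    rw [hη]
    unfold ub
    field_simp
    ring
  rw [hRy, mul_zero, hβ, one_mul, hYint, zero_mul, mul_zero, sub_zero] at hby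
  -- `dII`
  have hlam : ∀ x : Pool.LBM.R2, Pool.LBM.dt (-θ j) x = Xf θ P j x - Pool.LBM.dt (θ j) (P j) := by
    intro x; unfold Xf; rw [neg_dt]; ring
  have hD1 : Pool.LBM.dII n θ P ℓ l (-θ j) W (fun _ => 1) =
      (c - Pool.LBM.dt (θ j) (P j)) * Pool.LBM.GJ n θ P l := by
    unfold Pool.LBM.dII
    simp only [one_mul]
    have e1 : ∫ x in Pool.LBM.GP n θ P, Pool.LBM.dt (-θ j) x * Pool.LBM.ex l x = 0 := hcen _
    rw [e1, add_zero]
    exact hsum1
  have hDX : Pool.LBM.dII n θ P ℓ l (-θ j) W (Xf θ P j) =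
      Pool.LBM.dt (θ j) (P j) * ((c - Pool.LBM.dt (θ j) (P j)) * Pool.LBM.GJ n θ P l) := by
    unfold Pool.LBM.dII
    have e1 : ∫ x in Pool.LBM.GP n θ P, Xf θ P j x * Pool.LBM.dt (-θ j) x * Pool.LBM.ex l x =
        (∫ x in Pool.LBM.GP n θ P, Xf θ P j x ^ 2 * Pool.LBM.ex l x) -
          Pool.LBM.dt (θ j) (P j) * (Pool.LBM.dt (θ j) (P j) * Pool.LBM.GJ n θ P l) := by
      rw [← hXint, ← integral_const_mul, ← integral_sub (int_on hGN hG _ (by fun_prop))
        ((int_on hGN hG _ (by fun_prop)).const_mul _)]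
      congr 1; funext x
      rw [hlam]; ring
    rw [e1]
    linarith
  have hDY : Pool.LBM.dII n θ P ℓ l (-θ j) W (Yf (Pool.LBM.rt (θ j)) 0) = 0 := by
    unfold Pool.LBM.dII
    have e1 : ∫ x in Pool.LBM.GP n θ P, Yf (Pool.LBM.rt (θ j)) 0 x * Pool.LBM.dt (-θ j) x *
        Pool.LBM.ex l x = (∫ x in Pool.LBM.GP n θ P, Xf θ P j x * Yf (Pool.LBM.rt (θ j)) 0 x *
          Pool.LBM.ex l x) := by
      have e2 : ∀ x : Pool.LBM.R2, Yf (Pool.LBM.rt (θ j)) 0 x * Pool.LBM.dt (-θ j) x *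
        Pool.LBM.ex l x = Xf θ P j x * Yf (Pool.LBM.rt (θ j)) 0 x * Pool.LBM.ex l x -
          Pool.LBM.dt (θ j) (P j) * (Yf (Pool.LBM.rt (θ j)) 0 x * Pool.LBM.ex l x) := by
        intro x; rw [hlam]; ring
      simp only [e2]
      rw [integral_sub (int_on hGN hG _ (by fun_prop))
        ((int_on hGN hG _ (by fun_prop)).const_mul _), integral_const_mul, hYint]
      ring
    rw [e1]
    exact hby
  have hDz : ∀ z : Pool.LBM.R2, Pool.LBM.dII n θ P ℓ l (-θ j) W (fun x => Pool.LBM.dt z x) = 0 := by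
    intro z
    have e : (fun x : Pool.LBM.R2 => Pool.LBM.dt z x) = fun x =>
        Pool.LBM.dt z (θ j) * Pool.LBM.dt (θ j) (P j) + (-Pool.LBM.dt z (θ j)) * Xf θ P j x +
          (-Pool.LBM.dt z (Pool.LBM.rt (θ j))) * Yf (Pool.LBM.rt (θ j)) 0 x := by
      funext x
      rw [dt_decomp hG j z x]
      unfold Xf Yf; ring
    rw [e, dII_lin hG hGN _ _ _ _ _ (Xf_cont θ P j) (Yf_cont _ _), hD1, hDX, hDY]
    ring
  have hbar1 : Pool.LBM.dII n θ P ℓ l (-θ j) W (fun x => x.1) = 0 := by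
    have := hDz (1, 0)
    simpa [Pool.LBM.dt] using this
  have hbar2 : Pool.LBM.dII n θ P ℓ l (-θ j) W (fun x => x.2) = 0 := by
    have := hDz (0, 1)
    simpa [Pool.LBM.dt] using this
  refine ⟨W, c - Pool.LBM.dt (θ j) (P j), ⟨?_, ?_, ?_, hD1, hbar1, hbar2⟩, ?_⟩
  · exact Wj_per θ P n j l C κ η
  · -- parallel
    refine per_cases (n := n) (fun k => Pool.LBM.dt (θ k) (W (k + 1)) = Pool.LBM.dt (θ k) (W k))
      ?_ j (by omega) hj ?_
    swap
    · intro r hr
      show Pool.LBM.dt (θ (j + r)) (W (j + r + 1)) = Pool.LBM.dt (θ (j + r)) (W (j + r))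
      rcases Nat.eq_zero_or_pos r with h0 | h0
      · rw [h0, add_zero]
        have h1 : W (j + 1) = Wt θ P n j l C κ η 0 := by
          have := Wj_path θ P n j l C κ η hj 0 (by omega)
          simpa using this
        have h2 : W j = Wt θ P n j l C κ η ((n - 1 : ℕ) : ℝ) := Wj_src θ P n j l C κ η hj
        rw [h1, h2, hcl, Wt_x hG]
        unfold Pool.LBM.pVx
        rw [intervalIntegral.integral_same]; ring
      · obtain ⟨k, rfl⟩ : ∃ k, r = k + 1 := ⟨r - 1, by omega⟩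
        have h1 : W (j + (k + 1)) = Wt θ P n j l C κ η (k : ℝ) := by
          rw [show j + (k + 1) = j + 1 + k by ring]
          exact Wj_path θ P n j l C κ η hj k (by omega)
        have h2 : W (j + (k + 1) + 1) = Wt θ P n j l C κ η ((k + 1 : ℕ) : ℝ) := by
          rw [show j + (k + 1) + 1 = j + 1 + (k + 1) by ring]
          exact Wj_path θ P n j l C κ η hj (k + 1) (by omega)
        rw [h1, h2]
        have h3 := Wt_seg hG j l C κ η k ((k + 1 : ℕ) : ℝ) (by push_cast; exact ⟨by linarith, le_rfl⟩)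
        rw [h3, dt_add, dt_smul, show j + 1 + k = j + (k + 1) by ring, dt_self_rt]; ring
    · intro i
      have e1 : W (i + n + 1) = W (i + 1) := by
        rw [show i + n + 1 = i + 1 + n by ring]; exact Wj_per θ P n j l C κ η (i + 1)
      have e2 : W (i + n) = W i := Wj_per θ P n j l C κ η i
      show Pool.LBM.dt (θ (i + n)) (W (i + n + 1)) = Pool.LBM.dt (θ (i + n)) (W (i + n)) ↔ _
      rw [e1, e2, hG.perθ]
  · -- masses
    refine per_cases (n := n) (fun k => Pool.LBM.dms θ P ℓ l (-θ j) W k =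
      (c - Pool.LBM.dt (θ j) (P j)) * Pool.LBM.EI (Pool.LBM.ex l) θ P ℓ k -
        Pool.LBM.GJ n θ P l * Pool.LBM.dlt n j k) ?_ j (by omega) hj ?_
    swap
    · intro r hr
      show Pool.LBM.dms θ P ℓ l (-θ j) W (j + r) =
        (c - Pool.LBM.dt (θ j) (P j)) * Pool.LBM.EI (Pool.LBM.ex l) θ P ℓ (j + r) -
        Pool.LBM.GJ n θ P l * Pool.LBM.dlt n j (j + r)
      rcases Nat.eq_zero_or_pos r with h0 | h0
      · rw [h0, add_zero]
        have h1 : Pool.LBM.dlt n j j = 1 := by unfold Pool.LBM.dlt; simp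
        rw [h1, mul_one]
        exact mass_src hPC hGR hG j hj l C κ η hC hcl
      · obtain ⟨k, rfl⟩ : ∃ k, r = k + 1 := ⟨r - 1, by omega⟩
        have h1 : Pool.LBM.dlt n j (j + (k + 1)) = 0 := by
          unfold Pool.LBM.dlt
          rw [if_neg]
          intro hcon
          have h2 : (j + (k + 1)) ≡ j [MOD n] := hcon
          have h3 : (k + 1) ≡ 0 [MOD n] := by
            have : j + (k + 1) ≡ j + 0 [MOD n] := by simpa using h2
            exact Nat.ModEq.add_left_cancel' j this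
          have h4 : (k + 1) % n = 0 := by
            have := h3; unfold Nat.ModEq at this; simpa using this
          rw [Nat.mod_eq_of_lt hr] at h4
          omega
        rw [h1, mul_zero, sub_zero, show j + (k + 1) = j + 1 + k by ring]
        exact mass_path hPC hG j hj l C κ η hcl k (by omega)
    · intro i
      have e1 : W (i + n + 1) = W (i + 1) := by
        rw [show i + n + 1 = i + 1 + n by ring]; exact Wj_per θ P n j l C κ η (i + 1)
      have e2 : W (i + n) = W i := Wj_per θ P n j l C κ η i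
      have e3 : P (i + n + 1) = P (i + 1) := by
        rw [show i + n + 1 = i + 1 + n by ring]; exact hG.perP (i + 1)
      have e4 : Pool.LBM.dlt n j (i + n) = Pool.LBM.dlt n j i := by
        unfold Pool.LBM.dlt; rw [Nat.add_mod_right]
      have e5 : Pool.LBM.dms θ P ℓ l (-θ j) W (i + n) = Pool.LBM.dms θ P ℓ l (-θ j) W i := by
        unfold Pool.LBM.dms
        rw [e1, e2, e3, hG.perθ, EI_per hG]
      show Pool.LBM.dms θ P ℓ l (-θ j) W (i + n) =
        (c - Pool.LBM.dt (θ j) (P j)) * Pool.LBM.EI (Pool.LBM.ex l) θ P ℓ (i + n) -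
        Pool.LBM.GJ n θ P l * Pool.LBM.dlt n j (i + n) ↔ _
      rw [e5, e4, EI_per hG]
  · -- positivity
    intro i hi hβi
    apply target_pos hPOS hPC hPV hPY hGR hGN hG j hj l C κ η hC hcl i hi hβi
    have hDi : Pool.LBM.dII n θ P ℓ l (-θ j) W (Yf (θ i) (Pool.LBM.dt (θ i) (P i))) =
        Pool.LBM.dt (θ i) (P i) * ((c - Pool.LBM.dt (θ j) (P j)) * Pool.LBM.GJ n θ P l) := by
      have e : Yf (θ i) (Pool.LBM.dt (θ i) (P i)) = fun x =>
          Pool.LBM.dt (θ i) (P i) + (-1) * Pool.LBM.dt (θ i) x + 0 * Xf θ P j x := by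
        funext x; unfold Yf; ring
      rw [e, dII_lin hG hGN _ _ _ _ _ (dt_cont (θ i)) (Xf_cont θ P j), hD1]
      have := hDz (θ i)
      rw [this]; ring
    unfold Pool.LBM.dII at hDi
    have e1 : ∫ x in Pool.LBM.GP n θ P, Yf (θ i) (Pool.LBM.dt (θ i) (P i)) x *
        Pool.LBM.dt (-θ j) x * Pool.LBM.ex l x =
        (∫ x in Pool.LBM.GP n θ P, Xf θ P j x * Yf (θ i) (Pool.LBM.dt (θ i) (P i)) x *
          Pool.LBM.ex l x) - Pool.LBM.dt (θ j) (P j) *
            (Pool.LBM.dt (θ i) (P i) * Pool.LBM.GJ n θ P l) := by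
      rw [← hYint (θ i) (Pool.LBM.dt (θ i) (P i)), ← integral_const_mul,
        ← integral_sub (int_on hGN hG _ (by fun_prop))
        ((int_on hGN hG _ (by fun_prop)).const_mul _)]
      congr 1; funext x
      rw [hlam]; ring
    rw [e1] at hDi
    rw [hYint]
    linarith
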