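import Pool.Agent.Work.MP_b5407d_lbm_helper18.PY
import Pool.Agent.Work.MP_b5407d_lbm_helper18.SYM
import Pool.Agent.Work.MP_b5407d_lbm_helper2.MT
import Pool.Agent.Work.MP_b5407d_lbm_helper2.NR
import Pool.Agent.Work.MP_b5407d_lbm_helper20.PV
import Pool.Agent.Work.MP_b5407d_lbm_helper23.GO
import Pool.Agent.Work.MP_b5407d_lbm_helper23.SCA
import Pool.Agent.Work.MP_b5407d_lbm_helper24.PRK
import Pool.Agent.Work.MP_b5407d_lbm_helper26.LOC
import Pool.Agent.Work.MP_b5407d_lbm_helper31.GF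
import Pool.Agent.Work.MP_b5407d_lbm_helper31.GT
import Pool.Agent.Work.MP_b5407d_lbm_helper35.PC
import Pool.Agent.Work.MP_b5407d_lbm_helper42.CF
import Pool.Agent.Work.MP_b5407d_lbm_helper42.FV
import Pool.Agent.Work.MP_b5407d_lbm_helper5.LE
import Pool.Agent.Work.MP_b5407d_lbm_helper50.PLT
import Pool.Agent.Work.MP_b5407d_lbm_helper50.SCH
import Pool.Agent.Work.MP_b5407d_lbm_helper64.LPN
import Pool.Agent.Work.MP_b5407d_lbm_helper67.GN
import Pool.Agent.Work.MP_b5407d_lbm_helper67.LB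
import Pool.Agent.Work.MP_b5407d_lbm_helper76.GR
import Pool.Agent.Work.MP_b5407d_lbm_helper76.SF
import Pool.Agent.Work.MP_b5407d_lbm_helper79.DI
import Pool.Agent.Work.MP_b5407d_lbm_helper89.CONC
import Pool.Agent.Work.MP_b5407d_lbm_helper89.MC
import Pool.Agent.Work.MP_b5407d_lbm_helper93.DM
import Pool.Agent.Work.MP_b5407d_lbm_helper93.PX
import Pool.Agent.Work.MP_b5407d_lbm_helper94.DUA
import Pool.Agent.Work.MP_b5407d_lbm_helper97.SRC

/-! # Assembly of the global step: `POS` implies the planar inequalities -/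

set_option autoImplicit false

namespace Pool.LBM

theorem st_SF : Stmt_SF := blk_SF
theorem st_CF : Stmt_CF := blk_CF
theorem st_FV : Stmt_FV := blk_FV st_SF st_CF
theorem st_PRK : Stmt_PRK := blk_PRK
theorem st_PLT : Stmt_PLT := blk_PLT st_FV st_PRK
theorem st_SCH : Stmt_SCH := blk_SCH
theorem st_MT : Stmt_MT := blk_MT
theorem st_MC : Stmt_MC := blk_MC st_MT
theorem st_NR : Stmt_NR := blk_NR
theorem st_GN : Stmt_GN := blk_GN
theorem st_GF : Stmt_GF := blk_GF st_GN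
theorem st_GT : Stmt_GT := blk_GT st_GN
theorem st_GO : Stmt_GO := blk_GO st_NR
theorem st_GR : Stmt_GR := blk_GR st_FV st_GF st_GN
theorem st_DM : Stmt_DM := blk_DM st_GT st_GF
theorem st_DI : Stmt_DI := blk_DI st_FV st_GF st_GN
theorem st_PC : Stmt_PC := blk_PC
theorem st_PV : Stmt_PV := blk_PV st_PC
theorem st_PX : Stmt_PX := blk_PX st_PC
theorem st_PY : Stmt_PY := blk_PY st_PC
theorem st_SRC : Stmt_SRC := blk_SRC st_PC st_PV st_PX st_PY st_GR st_GN
theorem st_SCA : Stmt_SCA := blk_SCA st_GR st_GN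
theorem st_SYM : Stmt_SYM := blk_SYM st_GN
theorem st_DUA : Stmt_DUA := blk_DUA st_SRC st_SCA st_SYM st_GN
theorem st_LOC : Stmt_LOC := blk_LOC st_PLT st_FV st_GN st_GF st_GT st_DM st_DI st_DUA
theorem st_CON : Stmt_CON := blk_CON st_MT st_MC st_NR st_GO st_LOC st_SCH st_GN
theorem st_LB : Stmt_LB := blk_LB st_CON st_NR st_MT
theorem st_LE : Stmt_LE := blk_LE st_LB
theorem st_LPN : Stmt_LPN := blk_LPN st_LE

end Pool.LBM
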