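import Pool.Agent.Work.MP_b5407d_lbm.Interface

/-! # Tools: piecewise linear paths and edges of a `Gon` -/

set_option autoImplicit false
set_option linter.unusedSimpArgs false

open MeasureTheory Set Filter Topology

namespace Pool.LBM.SRC

lemma dt_rt (a b : R2) : dt a (rt b) = -cr a b := by simp only [dt, rt, cr]; ring
lemma dt_rt' (a b : R2) : dt b (rt a) = cr a b := by simp only [dt, rt, cr, Prod.fst_add, Prod.snd_add, Prod.fst_sub, Prod.snd_sub, Prod.smul_fst, Prod.smul_snd, Prod.fst_neg, Prod.snd_neg, smul_eq_mul]; ring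
lemma lagr (a b c d : R2) : dt a c * dt b d - dt b c * dt a d = cr a b * cr c d := by
  simp only [dt, cr]; ring
lemma cr_rt (a b : R2) : cr a (rt b) = dt a b := by simp only [dt, rt, cr, Prod.fst_add, Prod.snd_add, Prod.fst_sub, Prod.snd_sub, Prod.smul_fst, Prod.smul_snd, Prod.fst_neg, Prod.snd_neg, smul_eq_mul]; ring
lemma dt_add (a b c : R2) : dt a (b + c) = dt a b + dt a c := by simp only [dt, Prod.fst_add, Prod.snd_add, Prod.fst_sub, Prod.snd_sub, Prod.smul_fst, Prod.smul_snd, Prod.fst_neg, Prod.snd_neg, smul_eq_mul]; ring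
lemma dt_sub (a b c : R2) : dt a (b - c) = dt a b - dt a c := by simp only [dt, Prod.fst_add, Prod.snd_add, Prod.fst_sub, Prod.snd_sub, Prod.smul_fst, Prod.smul_snd, Prod.fst_neg, Prod.snd_neg, smul_eq_mul]; ring
lemma dt_smul (a b : R2) (s : ℝ) : dt a (s • b) = s * dt a b := by simp only [dt, Prod.fst_add, Prod.snd_add, Prod.fst_sub, Prod.snd_sub, Prod.smul_fst, Prod.smul_snd, Prod.fst_neg, Prod.snd_neg, smul_eq_mul]; ring
lemma dt_neg (a b : R2) : dt a (-b) = -dt a b := by simp only [dt, Prod.fst_add, Prod.snd_add, Prod.fst_sub, Prod.snd_sub, Prod.smul_fst, Prod.smul_snd, Prod.fst_neg, Prod.snd_neg, smul_eq_mul]; ring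
lemma dt_comm (a b : R2) : dt a b = dt b a := by simp only [dt, Prod.fst_add, Prod.snd_add, Prod.fst_sub, Prod.snd_sub, Prod.smul_fst, Prod.smul_snd, Prod.fst_neg, Prod.snd_neg, smul_eq_mul]; ring
lemma add_dt (a b c : R2) : dt (b + c) a = dt b a + dt c a := by simp only [dt, Prod.fst_add, Prod.snd_add, Prod.fst_sub, Prod.snd_sub, Prod.smul_fst, Prod.smul_snd, Prod.fst_neg, Prod.snd_neg, smul_eq_mul]; ring
lemma smul_dt (a b : R2) (s : ℝ) : dt (s • b) a = s * dt b a := by simp only [dt, Prod.fst_add, Prod.snd_add, Prod.fst_sub, Prod.snd_sub, Prod.smul_fst, Prod.smul_snd, Prod.fst_neg, Prod.snd_neg, smul_eq_mul]; ring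
lemma neg_dt (a b : R2) : dt (-b) a = -dt b a := by simp only [dt, Prod.fst_add, Prod.snd_add, Prod.fst_sub, Prod.snd_sub, Prod.smul_fst, Prod.smul_snd, Prod.fst_neg, Prod.snd_neg, smul_eq_mul]; ring
lemma dt_self_rt (a : R2) : dt a (rt a) = 0 := by simp only [dt, rt, Prod.fst_add, Prod.snd_add, Prod.fst_sub, Prod.snd_sub, Prod.smul_fst, Prod.smul_snd, Prod.fst_neg, Prod.snd_neg, smul_eq_mul]; ring
lemma rt_unit (a : R2) : dt (rt a) (rt a) = dt a a := by simp only [dt, rt, Prod.fst_add, Prod.snd_add, Prod.fst_sub, Prod.snd_sub, Prod.smul_fst, Prod.smul_snd, Prod.fst_neg, Prod.snd_neg, smul_eq_mul]; ring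

@[fun_prop] lemma dt_cont (a : R2) : Continuous (fun x : R2 => dt a x) := by
  unfold dt; fun_prop

@[fun_prop] lemma ex_cont (l : R2) : Continuous (fun x : R2 => ex l x) := by
  unfold ex; fun_prop

lemma ex_pos (l x : R2) : 0 < ex l x := Real.exp_pos _

/-! ## piecewise linear functions -/

lemma floor_eq {k : ℕ} {t : ℝ} (h : t ∈ Ico (k : ℝ) (k + 1)) : ⌊t⌋₊ = k := by
  rw [Nat.floor_eq_iff (le_trans (Nat.cast_nonneg k) h.1)]
  exact ⟨h.1, h.2⟩

lemma pl_eq (a : ℕ → ℝ) {k : ℕ} {t : ℝ} (h : t ∈ Icc (k : ℝ) (k + 1)) :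
    pl a t = a k + (t - k) * (a (k + 1) - a k) := by
  rcases eq_or_lt_of_le h.2 with h2 | h2
  · have : t = ((k + 1 : ℕ) : ℝ) := by push_cast; exact h2
    unfold pl
    rw [this, Nat.floor_natCast]
    push_cast
    ring
  · unfold pl
    rw [floor_eq ⟨h.1, h2⟩]

lemma pl_nat (a : ℕ → ℝ) (k : ℕ) : pl a (k : ℝ) = a k := by
  unfold pl; rw [Nat.floor_natCast]; ring

lemma dpl_eq (a : ℕ → ℝ) {k : ℕ} {t : ℝ} (h : t ∈ Ico (k : ℝ) (k + 1)) :
    dpl a t = a (k + 1) - a k := by
  unfold dpl; rw [floor_eq h]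

lemma pl_lin (f g : ℕ → ℝ) (c α β t : ℝ) :
    pl (fun k => c + α * f k + β * g k) t = c + α * pl f t + β * pl g t := by
  unfold pl; ring

lemma dpl_lin (f g : ℕ → ℝ) (c α β t : ℝ) :
    dpl (fun k => c + α * f k + β * g k) t = α * dpl f t + β * dpl g t := by
  unfold dpl; ring

/-- piecewise linear functions are continuous -/
lemma pl_cont (a : ℕ → ℝ) : Continuous (pl a) := by
  rw [continuous_iff_continuousAt]
  intro t
  rcases lt_or_ge t 0 with ht | ht
  · have h1 : ∀ᶠ s in 𝓝 t, pl a s = a 0 + s * (a 1 - a 0) := by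
      filter_upwards [Iio_mem_nhds ht] with s hs
      unfold pl
      rw [Nat.floor_of_nonpos (le_of_lt hs)]
      simp
    have h2 : ContinuousAt (fun s : ℝ => a 0 + s * (a 1 - a 0)) t := by fun_prop
    exact h2.congr (h1.mono fun s hs => hs.symm)
  · -- t ≥ 0
    set k := ⌊t⌋₊ with hk
    have hk1 : (k : ℝ) ≤ t := Nat.floor_le ht
    have hk2 : t < k + 1 := Nat.lt_floor_add_one t
    rcases eq_or_lt_of_le hk1 with h | h
    · -- t = k
      rw [continuousAt_iff_continuous_left_right]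
      constructor
      · -- from the left
        rcases Nat.eq_zero_or_pos k with h0 | h0
        · have ht0 : t = 0 := by rw [← h, h0]; simp
          have h1 : ∀ s ∈ Iic t, pl a s = a 0 + s * (a 1 - a 0) := by
            intro s hs
            unfold pl
            rw [ht0] at hs
            rw [Nat.floor_of_nonpos hs]
            simp
          have h2 : ContinuousWithinAt (fun s : ℝ => a 0 + s * (a 1 - a 0)) (Iic t) t := by
            fun_prop
          exact h2.congr h1 (h1 t (mem_Iic.2 le_rfl))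
        · obtain ⟨j, hj⟩ : ∃ j, k = j + 1 := ⟨k - 1, by omega⟩
          have hkj : (k : ℝ) = j + 1 := by rw [hj]; push_cast; ring
          have h1 : ∀ᶠ s in 𝓝[Iic t] t, pl a s = a j + (s - j) * (a (j + 1) - a j) := by
            have : Ioi (j : ℝ) ∈ 𝓝[Iic t] t :=
              mem_nhdsWithin_of_mem_nhds (Ioi_mem_nhds (by rw [← h, hkj]; linarith))
            filter_upwards [this, self_mem_nhdsWithin] with s hs hs2
            apply pl_eq
            exact ⟨le_of_lt hs, by rw [← hkj, h]; exact hs2⟩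
          have h2 : ContinuousWithinAt (fun s : ℝ => a j + (s - j) * (a (j + 1) - a j)) (Iic t) t := by
            fun_prop
          refine h2.congr_of_eventuallyEq h1 ?_
          apply pl_eq
          exact ⟨by rw [← h, hkj]; linarith, by rw [← h, hkj]⟩
      · have h1 : ∀ᶠ s in 𝓝[Ici t] t, pl a s = a k + (s - k) * (a (k + 1) - a k) := by
          have : Iio ((k : ℝ) + 1) ∈ 𝓝[Ici t] t :=
            mem_nhdsWithin_of_mem_nhds (Iio_mem_nhds hk2)
          filter_upwards [this, self_mem_nhdsWithin] with s hs hs2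
          apply pl_eq
          exact ⟨by rw [h]; exact hs2, le_of_lt hs⟩
        have h2 : ContinuousWithinAt (fun s : ℝ => a k + (s - k) * (a (k + 1) - a k)) (Ici t) t := by
          fun_prop
        exact h2.congr_of_eventuallyEq h1 (pl_eq a ⟨hk1, hk2.le⟩)
    · have h1 : ∀ᶠ s in 𝓝 t, pl a s = a k + (s - k) * (a (k + 1) - a k) := by
        filter_upwards [Ioo_mem_nhds h hk2] with s hs
        exact pl_eq a ⟨hs.1.le, hs.2.le⟩
      have h2 : ContinuousAt (fun s : ℝ => a k + (s - k) * (a (k + 1) - a k)) t := by fun_prop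
      exact h2.congr (h1.mono fun s hs => hs.symm)

/-- integrals of piecewise continuous functions -/
lemma pint (f : ℝ → ℝ) (g : ℕ → ℝ → ℝ) (m : ℕ) (hg : ∀ k, Continuous (g k))
    (h : ∀ k, k < m → ∀ t ∈ Ioo (k : ℝ) (k + 1), f t = g k t) :
    (∀ k, k < m → IntervalIntegrable f volume (k : ℝ) ((k + 1 : ℕ) : ℝ)) ∧
    IntervalIntegrable f volume (0 : ℝ) m ∧
    (∀ k, k < m → ∫ t in (k : ℝ)..((k + 1 : ℕ) : ℝ), f t = ∫ t in (k : ℝ)..(k + 1), g k t) ∧
    ∫ t in (0 : ℝ)..m, f t = ∑ k ∈ Finset.range m, ∫ t in (k : ℝ)..(k + 1), g k t := by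
  have hae : ∀ k, k < m → ∀ᵐ t ∂(volume : Measure ℝ), t ∈ uIoc (k : ℝ) ((k + 1 : ℕ) : ℝ) → g k t = f t := by
    intro k hk
    have h0 : ∀ᵐ t ∂(volume : Measure ℝ), t ≠ (k + 1 : ℝ) := by
      simp [ae_iff, measure_singleton]
    filter_upwards [h0] with t ht hmem
    rw [uIoc_of_le (by push_cast; linarith)] at hmem
    symm
    apply h k hk
    push_cast at hmem
    exact ⟨hmem.1, lt_of_le_of_ne hmem.2 ht⟩
  have hi : ∀ k, k < m → IntervalIntegrable f volume (k : ℝ) ((k + 1 : ℕ) : ℝ) := by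
    intro k hk
    refine ((hg k).intervalIntegrable _ _).congr_ae ?_
    rw [Filter.EventuallyEq, ae_restrict_iff' measurableSet_uIoc]
    exact hae k hk
  have he : ∀ k, k < m → ∫ t in (k : ℝ)..((k + 1 : ℕ) : ℝ), f t = ∫ t in (k : ℝ)..(k + 1), g k t := by
    intro k hk
    symm
    have := intervalIntegral.integral_congr_ae (hae k hk)
    push_cast at this ⊢
    exact this
  have hi2 : IntervalIntegrable f volume ((0 : ℕ) : ℝ) m := by
    apply IntervalIntegrable.trans_iterate
    intro k hk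
    exact hi k hk
  refine ⟨hi, by simpa using hi2, he, ?_⟩
  have := intervalIntegral.sum_integral_adjacent_intervals (a := fun k : ℕ => (k : ℝ)) (n := m)
    (f := f) (μ := volume) (fun k hk => by exact hi k hk)
  simp only [Nat.cast_zero] at this
  rw [← this]
  apply Finset.sum_congr rfl
  intro k hk
  exact he k (Finset.mem_range.1 hk)

end Pool.LBM.SRC
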