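import Pool.Agent.Work.MP_b5407d_lbm_helper97.SRCa

/-! # From area integrals over a `Gon` to integrals along the path -/

set_option autoImplicit false
set_option linter.unusedSimpArgs false

open MeasureTheory Set Filter Topology

namespace Pool.LBM.SRC

/-- first coordinate: distance to the line of the source edge -/
noncomputable def Xf (θ P : ℕ → R2) (j : ℕ) (x : R2) : ℝ := dt (θ j) (P j) - dt (θ j) x

/-- second coordinate -/
noncomputable def Yf (ν : R2) (hs : ℝ) (x : R2) : ℝ := hs - dt ν x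

/-- coordinates of the vertices of the path starting after the edge `j` -/
noncomputable def As (θ P : ℕ → R2) (j : ℕ) (k : ℕ) : ℝ := Xf θ P j (P (j + 1 + k))

/-- second coordinates -/
noncomputable def Bs (P : ℕ → R2) (j : ℕ) (ν : R2) (hs : ℝ) (k : ℕ) : ℝ :=
  Yf ν hs (P (j + 1 + k))

@[fun_prop] lemma Xf_cont (θ P : ℕ → R2) (j : ℕ) : Continuous (Xf θ P j) := by
  unfold Xf dt; fun_prop

@[fun_prop] lemma Yf_cont (ν : R2) (hs : ℝ) : Continuous (Yf ν hs) := by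
  unfold Yf dt; fun_prop

section
variable {n : ℕ} {θ P : ℕ → R2} {ℓ : ℕ → ℝ} (hG : Gon n θ P ℓ)
include hG

lemma As_zero (j : ℕ) : As θ P j 0 = 0 := by
  unfold As Xf
  rw [add_zero, hG.edge j, dt_add, dt_smul, dt_self_rt]; ring

lemma per_idx (j : ℕ) : j + 1 + (n - 1) = j + n := by
  have := hG.three; omega

lemma As_end (j : ℕ) : As θ P j (n - 1) = 0 := by
  unfold As Xf
  rw [per_idx hG, hG.perP]; ring

lemma As_step (j k : ℕ) : As θ P j (k + 1) - As θ P j k =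
    ℓ (j + 1 + k) * cr (θ j) (θ (j + 1 + k)) := by
  unfold As Xf
  rw [show j + 1 + (k + 1) = (j + 1 + k) + 1 by ring, hG.edge (j + 1 + k), dt_add, dt_smul, dt_rt]
  ring

lemma Bs_step (j : ℕ) (ν : R2) (hs : ℝ) (k : ℕ) : Bs P j ν hs (k + 1) - Bs P j ν hs k =
    ℓ (j + 1 + k) * cr ν (θ (j + 1 + k)) := by
  unfold Bs Yf
  rw [show j + 1 + (k + 1) = (j + 1 + k) + 1 by ring, hG.edge (j + 1 + k), dt_add, dt_smul, dt_rt]
  ring

/-- the point of the path -/
lemma path_X (j k : ℕ) (t : ℝ) (ht : t ∈ Icc (k : ℝ) (k + 1)) :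
    pl (As θ P j) t =
      Xf θ P j (P (j + 1 + k) + ((t - k) * ℓ (j + 1 + k)) • rt (θ (j + 1 + k))) := by
  rw [pl_eq _ ht, As_step hG]
  unfold As Xf
  rw [dt_add, dt_smul, dt_rt]; ring

lemma path_Y (j : ℕ) (ν : R2) (hs : ℝ) (k : ℕ) (t : ℝ) (ht : t ∈ Icc (k : ℝ) (k + 1)) :
    pl (Bs P j ν hs) t =
      Yf ν hs (P (j + 1 + k) + ((t - k) * ℓ (j + 1 + k)) • rt (θ (j + 1 + k))) := by
  rw [pl_eq _ ht, Bs_step hG]
  unfold Bs Yf
  rw [dt_add, dt_smul, dt_rt]; ring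

/-- edge integral in the parameter of the path -/
lemma EI_path (f : R2 → ℝ) (i k : ℕ) :
    ℓ i * ∫ t in (k : ℝ)..(k + 1), f (P i + ((t - k) * ℓ i) • rt (θ i)) = EI f θ P ℓ i := by
  unfold EI
  have hl := hG.pos i
  have h1 := intervalIntegral.integral_comp_mul_sub (a := (k : ℝ)) (b := k + 1)
    (fun s : ℝ => f (P i + s • rt (θ i))) hl.ne' (ℓ i * k)
  have h2 : (fun x : ℝ => f (P i + (ℓ i * x - ℓ i * k) • rt (θ i))) =
      fun t : ℝ => f (P i + ((t - k) * ℓ i) • rt (θ i)) := by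
    funext x; congr 3; ring
  rw [h2] at h1
  rw [h1, smul_eq_mul, ← mul_assoc, mul_inv_cancel₀ hl.ne', one_mul]
  congr 1 <;> ring

end

/-- a sum over a period does not depend on the starting point -/
lemma sum_per {n : ℕ} (F : ℕ → ℝ) (hF : ∀ k, F (k + n) = F k) (j : ℕ) :
    ∑ k ∈ Finset.range n, F (j + k) = ∑ k ∈ Finset.range n, F k := by
  induction j with
  | zero => simp
  | succ j ih =>
    rw [← ih]
    have h1 := Finset.sum_range_succ (fun k => F (j + k)) n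
    have h2 := Finset.sum_range_succ' (fun k => F (j + k)) n
    rw [h1] at h2
    simp only [add_zero, hF] at h2
    have h3 : ∑ k ∈ Finset.range n, F (j + 1 + k) = ∑ k ∈ Finset.range n, F (j + (k + 1)) := by
      apply Finset.sum_congr rfl; intro k _; congr 1; ring
    rw [h3]
    linarith

/-- splitting off the source edge -/
lemma sum_split {n : ℕ} (hn : 1 ≤ n) (F : ℕ → ℝ) (hF : ∀ k, F (k + n) = F k) (j : ℕ) :
    ∑ k ∈ Finset.range n, F k = F j + ∑ k ∈ Finset.range (n - 1), F (j + 1 + k) := by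
  rw [← sum_per F hF j]
  obtain ⟨m, rfl⟩ : ∃ m, n = m + 1 := ⟨n - 1, by omega⟩
  rw [Finset.sum_range_succ', add_comm]
  simp only [add_zero, Nat.add_sub_cancel]
  congr 1
  apply Finset.sum_congr rfl
  intro k _; congr 1; ring

lemma EI_per {n : ℕ} {θ P : ℕ → R2} {ℓ : ℕ → ℝ} (hG : Gon n θ P ℓ) (f : R2 → ℝ) (k : ℕ) :
    EI f θ P ℓ (k + n) = EI f θ P ℓ k := by
  unfold EI; rw [hG.perl, hG.perP, hG.perθ]

/-- path integral against `dpl` of a coordinate -/
lemma path_int {n : ℕ} {θ P : ℕ → R2} {ℓ : ℕ → ℝ} (hG : Gon n θ P ℓ) (j : ℕ) (ν : R2) (hs : ℝ)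
    (φ : ℝ → ℝ → ℝ) (hφ : Continuous fun q : ℝ × ℝ => φ q.1 q.2) (D : ℕ → ℝ) (δ : ℕ → ℝ)
    (hD : ∀ k, D (k + 1) - D k = ℓ (j + 1 + k) * δ k) :
    IntervalIntegrable (fun t => φ (pl (As θ P j) t) (pl (Bs P j ν hs) t) * dpl D t) volume 0
      ((n - 1 : ℕ) : ℝ) ∧
    ∫ t in (0 : ℝ)..((n - 1 : ℕ) : ℝ), φ (pl (As θ P j) t) (pl (Bs P j ν hs) t) * dpl D t =
      ∑ k ∈ Finset.range (n - 1), δ k * EI (fun x => φ (Xf θ P j x) (Yf ν hs x)) θ P ℓ (j + 1 + k) := by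
  have hc : ∀ k : ℕ, Continuous (fun t : ℝ =>
      φ (Xf θ P j (P (j + 1 + k) + ((t - k) * ℓ (j + 1 + k)) • rt (θ (j + 1 + k))))
        (Yf ν hs (P (j + 1 + k) + ((t - k) * ℓ (j + 1 + k)) • rt (θ (j + 1 + k)))) *
      (ℓ (j + 1 + k) * δ k)) := by
    intro k
    have h1 : Continuous (fun t : ℝ => (Xf θ P j (P (j + 1 + k) + ((t - k) * ℓ (j + 1 + k)) •
      rt (θ (j + 1 + k))), Yf ν hs (P (j + 1 + k) + ((t - k) * ℓ (j + 1 + k)) •
      rt (θ (j + 1 + k))))) := by fun_prop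
    exact (hφ.comp h1).mul continuous_const
  obtain ⟨_, h2, _, h4⟩ := pint (fun t => φ (pl (As θ P j) t) (pl (Bs P j ν hs) t) * dpl D t) _
    (n - 1) hc (by
      intro k hk t ht
      have ht' : t ∈ Icc (k : ℝ) (k + 1) := ⟨ht.1.le, ht.2.le⟩
      rw [path_X hG j k t ht', path_Y hG j ν hs k t ht', dpl_eq D ⟨ht.1.le, ht.2⟩, hD])
  refine ⟨h2, ?_⟩
  rw [h4]
  apply Finset.sum_congr rfl
  intro k _
  rw [intervalIntegral.integral_mul_const]
  rw [← EI_path hG (fun x => φ (Xf θ P j x) (Yf ν hs x)) (j + 1 + k) k]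
  ring


/-! ## Green's theorem along the path -/

lemma fder_dir (Φ : R2 → ℝ) (hΦ : ContDiff ℝ 1 Φ) (x t : R2) (d : ℝ)
    (h : HasDerivAt (fun s : ℝ => Φ (x + s • t)) d 0) : fderiv ℝ Φ x t = d := by
  have h1 : HasFDerivAt Φ (fderiv ℝ Φ x) x := (hΦ.differentiable (by norm_num) x).hasFDerivAt
  have h2 : HasDerivAt (fun s : ℝ => x + s • t) t 0 := by
    have := ((hasDerivAt_id (0 : ℝ)).smul_const t).const_add x
    simpa using this
  have h3 : HasDerivAt (fun s : ℝ => Φ (x + s • t)) (fderiv ℝ Φ x t) 0 := by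
    have h1' : HasFDerivAt Φ (fderiv ℝ Φ x) (x + (0 : ℝ) • t) := by simpa using h1
    exact h1'.comp_hasDerivAt (0 : ℝ) h2
  exact h3.unique h

/-- Green's theorem with test functions `g(X) h(Y)`, direction of the source edge. -/
lemma green_path (hGR : Stmt_GR) {n : ℕ} {θ P : ℕ → R2} {ℓ : ℕ → ℝ} (hG : Gon n θ P ℓ)
    (j : ℕ) (ν : R2) (hs : ℝ) (g h h' : ℝ → ℝ) (hg : ContDiff ℝ 1 g) (hh : ContDiff ℝ 1 h)
    (hh' : ∀ y, HasDerivAt h (h' y) y) :
    ∫ t in (0 : ℝ)..((n - 1 : ℕ) : ℝ), g (pl (As θ P j) t) * h (pl (Bs P j ν hs) t) *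
      dpl (As θ P j) t =
      -(cr (θ j) ν * ∫ x in GP n θ P, g (Xf θ P j x) * h' (Yf ν hs x)) := by
  have hX : ContDiff ℝ 1 (Xf θ P j) := by unfold Xf dt; fun_prop
  have hY : ContDiff ℝ 1 (Yf ν hs) := by unfold Yf dt; fun_prop
  have hΦ : ContDiff ℝ 1 (fun x => g (Xf θ P j x) * h (Yf ν hs x)) :=
    (hg.comp hX).mul (hh.comp hY)
  have h1 := hGR n θ P ℓ hG _ hΦ (rt (θ j))
  have h2 : ∀ x, fderiv ℝ (fun x => g (Xf θ P j x) * h (Yf ν hs x)) x (rt (θ j)) =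
      -(cr (θ j) ν) * (g (Xf θ P j x) * h' (Yf ν hs x)) := by
    intro x
    apply fder_dir _ hΦ
    have e1 : (fun s : ℝ => g (Xf θ P j (x + s • rt (θ j))) * h (Yf ν hs (x + s • rt (θ j)))) =
        fun s : ℝ => g (Xf θ P j x) * h (Yf ν hs x + s * (-(cr (θ j) ν))) := by
      funext s
      congr 2
      · unfold Xf; rw [dt_add, dt_smul, dt_self_rt]; ring
      · unfold Yf; rw [dt_add, dt_smul, dt_rt']; ring
    rw [e1]
    have e2 : HasDerivAt (fun s : ℝ => Yf ν hs x + s * (-(cr (θ j) ν))) (-(cr (θ j) ν)) 0 := by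
      have := ((hasDerivAt_id (0 : ℝ)).mul_const (-(cr (θ j) ν))).const_add (Yf ν hs x)
      simpa using this
    have e3 : HasDerivAt h (h' (Yf ν hs x)) (Yf ν hs x + 0 * (-(cr (θ j) ν))) := by
      simpa using hh' (Yf ν hs x)
    have e4 := (e3.comp (0 : ℝ) e2).const_mul (g (Xf θ P j x))
    refine e4.congr_deriv ?_
    ring
  simp only [h2] at h1
  rw [integral_const_mul] at h1
  have h3 := (path_int hG j ν hs (fun x y => g x * h y)
    (by exact (hg.continuous.comp continuous_fst).mul (hh.continuous.comp continuous_snd))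
    (As θ P j) (fun k => cr (θ j) (θ (j + 1 + k))) (As_step hG j)).2
  rw [h3]
  have hn := hG.three
  have h4 := sum_split (n := n) (by omega)
    (fun k => dt (θ k) (rt (θ j)) * EI (fun x => g (Xf θ P j x) * h (Yf ν hs x)) θ P ℓ k)
    (by intro k; simp only [hG.perθ, EI_per hG]) j
  rw [h4, dt_self_rt, zero_mul, zero_add] at h1
  simp only [dt_rt'] at h1
  rw [← h1]; ring

/-- Green's theorem in the direction `Y = const`. -/
lemma green_path2 (hGR : Stmt_GR) {n : ℕ} {θ P : ℕ → R2} {ℓ : ℕ → ℝ} (hG : Gon n θ P ℓ)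
    (j : ℕ) (ν : R2) (hs : ℝ) (g g' h : ℝ → ℝ) (hg : ContDiff ℝ 1 g) (hh : ContDiff ℝ 1 h)
    (hg' : ∀ y, HasDerivAt g (g' y) y) (hg0 : g 0 = 0) :
    ∫ t in (0 : ℝ)..((n - 1 : ℕ) : ℝ), g (pl (As θ P j) t) * h (pl (Bs P j ν hs) t) *
      dpl (Bs P j ν hs) t =
      cr (θ j) ν * ∫ x in GP n θ P, g' (Xf θ P j x) * h (Yf ν hs x) := by
  have hX : ContDiff ℝ 1 (Xf θ P j) := by unfold Xf dt; fun_prop
  have hY : ContDiff ℝ 1 (Yf ν hs) := by unfold Yf dt; fun_prop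
  have hΦ : ContDiff ℝ 1 (fun x => g (Xf θ P j x) * h (Yf ν hs x)) :=
    (hg.comp hX).mul (hh.comp hY)
  have h1 := hGR n θ P ℓ hG _ hΦ (rt ν)
  have h2 : ∀ x, fderiv ℝ (fun x => g (Xf θ P j x) * h (Yf ν hs x)) x (rt ν) =
      (cr (θ j) ν) * (g' (Xf θ P j x) * h (Yf ν hs x)) := by
    intro x
    apply fder_dir _ hΦ
    have e1 : (fun s : ℝ => g (Xf θ P j (x + s • rt ν)) * h (Yf ν hs (x + s • rt ν))) =
        fun s : ℝ => g (Xf θ P j x + s * (cr (θ j) ν)) * h (Yf ν hs x) := by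
      funext s
      congr 2
      · unfold Xf; rw [dt_add, dt_smul, dt_rt]; ring
      · unfold Yf; rw [dt_add, dt_smul, dt_self_rt]; ring
    rw [e1]
    have e2 : HasDerivAt (fun s : ℝ => Xf θ P j x + s * (cr (θ j) ν)) (cr (θ j) ν) 0 := by
      have := ((hasDerivAt_id (0 : ℝ)).mul_const (cr (θ j) ν)).const_add (Xf θ P j x)
      simpa using this
    have e3 : HasDerivAt g (g' (Xf θ P j x)) (Xf θ P j x + 0 * (cr (θ j) ν)) := by
      simpa using hg' (Xf θ P j x)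
    have e4 := (e3.comp (0 : ℝ) e2).mul_const (h (Yf ν hs x))
    refine e4.congr_deriv ?_
    ring
  simp only [h2] at h1
  rw [integral_const_mul] at h1
  have h3 := (path_int hG j ν hs (fun x y => g x * h y)
    (by exact (hg.continuous.comp continuous_fst).mul (hh.continuous.comp continuous_snd))
    (Bs P j ν hs) (fun k => cr ν (θ (j + 1 + k))) (Bs_step hG j ν hs)).2
  rw [h3]
  have hn := hG.three
  have h4 := sum_split (n := n) (by omega)
    (fun k => dt (θ k) (rt ν) * EI (fun x => g (Xf θ P j x) * h (Yf ν hs x)) θ P ℓ k)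
    (by intro k; simp only [hG.perθ, EI_per hG]) j
  have h5 : EI (fun x => g (Xf θ P j x) * h (Yf ν hs x)) θ P ℓ j = 0 := by
    unfold EI
    have : ∀ s : ℝ, g (Xf θ P j (P j + s • rt (θ j))) * h (Yf ν hs (P j + s • rt (θ j))) = 0 := by
      intro s
      have : Xf θ P j (P j + s • rt (θ j)) = 0 := by
        unfold Xf; rw [dt_add, dt_smul, dt_self_rt]; ring
      rw [this, hg0, zero_mul]
    simp [this]
  rw [h4, h5, mul_zero, zero_add] at h1
  simp only [dt_rt'] at h1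
  rw [← h1]

end Pool.LBM.SRC
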