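import Pool.Agent.Work.MP_b5407d_lbm_helper97.SRCb
import Pool.Agent.Work.MP_b5407d_lbm_helper35.PC

/-! # Frames: conversion of the path functionals, positivity of `d` -/

set_option autoImplicit false
set_option linter.unusedSimpArgs false

open MeasureTheory Set Filter Topology

namespace Pool.LBM.SRC

open Pool.LBM.Path (mE_deriv mL_deriv mE_cont mL_cont mul_ii prim_cont pe_cont pe_pos pe_ne pu_cont
  cont_pl exp_mE_neg mE_zero mL_zero)

lemma mE_C1 (w : ℝ) : ContDiff ℝ 1 (mE w) := by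
  rw [contDiff_one_iff_deriv]
  refine ⟨fun y => (mE_deriv w y).differentiableAt, ?_⟩
  have : deriv (mE w) = fun y => Real.exp (-(w * y)) := by
    funext y; exact (mE_deriv w y).deriv
  rw [this]; fun_prop

lemma mL_C1 (w : ℝ) : ContDiff ℝ 1 (mL w) := by
  rw [contDiff_one_iff_deriv]
  refine ⟨fun y => (mL_deriv w y).differentiableAt, ?_⟩
  have : deriv (mL w) = fun y => y * Real.exp (-(w * y)) := by
    funext y; exact (mL_deriv w y).deriv
  rw [this]; fun_prop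

/-- normalisation constant of the frame -/
noncomputable def ep (θ P : ℕ → R2) (j : ℕ) (hs v w : ℝ) : ℝ :=
  Real.exp (v * dt (θ j) (P j) + w * hs)

lemma ep_pos (θ P : ℕ → R2) (j : ℕ) (hs v w : ℝ) : 0 < ep θ P j hs v w := Real.exp_pos _

lemma ex_frame (θ P : ℕ → R2) (j : ℕ) (ν : R2) (hs v w : ℝ) (x : R2) :
    ex (v • θ j + w • ν) x = ep θ P j hs v w *
      (Real.exp (-(v * Xf θ P j x)) * Real.exp (-(w * Yf ν hs x))) := by
  unfold ex ep
  rw [← Real.exp_add, ← Real.exp_add]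
  congr 1
  rw [add_dt, smul_dt, smul_dt]
  unfold Xf Yf; ring

section
variable {n : ℕ} {θ P : ℕ → R2} {ℓ : ℕ → ℝ}

/-- area integrals as path integrals -/
lemma fr_gen (hGR : Stmt_GR) (hG : Gon n θ P ℓ) (j : ℕ) (ν : R2) (hs v w : ℝ)
    (p q h : ℝ → ℝ) (hp : ContDiff ℝ 1 p) (hh : ContDiff ℝ 1 h)
    (hh' : ∀ y, HasDerivAt h (q y * Real.exp (-(w * y))) y) :
    ep θ P j hs v w * ∫ t in (0 : ℝ)..((n - 1 : ℕ) : ℝ),
      p (pl (As θ P j) t) * Real.exp (-(v * pl (As θ P j) t)) * h (pl (Bs P j ν hs) t) *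
        dpl (As θ P j) t =
    -(cr (θ j) ν * ∫ x in GP n θ P, p (Xf θ P j x) * q (Yf ν hs x) * ex (v • θ j + w • ν) x) := by
  have h1 := green_path hGR hG j ν hs (fun x => p x * Real.exp (-(v * x))) h _ 
    (hp.mul (by fun_prop)) hh hh'
  rw [h1]
  have h2 : ∀ x, p (Xf θ P j x) * q (Yf ν hs x) * ex (v • θ j + w • ν) x =
      ep θ P j hs v w * (p (Xf θ P j x) * Real.exp (-(v * Xf θ P j x)) *
        (q (Yf ν hs x) * Real.exp (-(w * Yf ν hs x)))) := by
    intro x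
    rw [ex_frame θ P j ν hs v w x]; ring
  simp only [h2]
  rw [integral_const_mul]
  ring

lemma fr_J (hGR : Stmt_GR) (hG : Gon n θ P ℓ) (j : ℕ) (ν : R2) (hs v w : ℝ) :
    ep θ P j hs v w * pJ v w (As θ P j) (Bs P j ν hs) (n - 1) =
      cr (θ j) ν * GJ n θ P (v • θ j + w • ν) := by
  have h1 := fr_gen hGR hG j ν hs v w (fun _ => 1) (fun _ => 1) (mE w) contDiff_const (mE_C1 w)
    (by intro y; simpa using mE_deriv w y)
  simp only [one_mul] at h1
  unfold pJ pL pq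
  rw [mul_neg, h1, neg_neg]
  rfl

lemma fr_XJ (hGR : Stmt_GR) (hG : Gon n θ P ℓ) (j : ℕ) (ν : R2) (hs v w : ℝ) :
    ep θ P j hs v w * (∫ t in (0 : ℝ)..((n - 1 : ℕ) : ℝ), pl (As θ P j) t *
      pq v w (As θ P j) (Bs P j ν hs) t * dpl (As θ P j) t) =
      -(cr (θ j) ν * ∫ x in GP n θ P, Xf θ P j x * ex (v • θ j + w • ν) x) := by
  have h1 := fr_gen hGR hG j ν hs v w (fun x => x) (fun _ => 1) (mE w) contDiff_id (mE_C1 w)
    (by intro y; simpa using mE_deriv w y)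
  simp only [mul_one] at h1
  rw [← h1]
  congr 1
  apply intervalIntegral.integral_congr
  intro t _
  simp only [pq]
  ring

lemma fr_X2 (hGR : Stmt_GR) (hG : Gon n θ P ℓ) (j : ℕ) (ν : R2) (hs v w : ℝ) :
    ep θ P j hs v w * (∫ t in (0 : ℝ)..((n - 1 : ℕ) : ℝ), pl (As θ P j) t ^ 2 *
      pq v w (As θ P j) (Bs P j ν hs) t * dpl (As θ P j) t) =
      -(cr (θ j) ν * ∫ x in GP n θ P, Xf θ P j x ^ 2 * ex (v • θ j + w • ν) x) := by
  have h1 := fr_gen hGR hG j ν hs v w (fun x => x ^ 2) (fun _ => 1) (mE w) (by fun_prop) (mE_C1 w)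
    (by intro y; simpa using mE_deriv w y)
  simp only [mul_one] at h1
  rw [← h1]
  congr 1
  apply intervalIntegral.integral_congr
  intro t _
  simp only [pq]
  ring

lemma fr_Y (hGR : Stmt_GR) (hG : Gon n θ P ℓ) (j : ℕ) (ν : R2) (hs v w : ℝ) :
    ep θ P j hs v w * (∫ t in (0 : ℝ)..((n - 1 : ℕ) : ℝ),
      Real.exp (-(v * pl (As θ P j) t)) * mL w (pl (Bs P j ν hs) t) * dpl (As θ P j) t) =
      -(cr (θ j) ν * ∫ x in GP n θ P, Yf ν hs x * ex (v • θ j + w • ν) x) := by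
  have h1 := fr_gen hGR hG j ν hs v w (fun _ => 1) (fun y => y) (mL w) contDiff_const (mL_C1 w)
    (by intro y; exact mL_deriv w y)
  simp only [one_mul] at h1
  exact h1

lemma fr_XY (hGR : Stmt_GR) (hG : Gon n θ P ℓ) (j : ℕ) (ν : R2) (hs v w : ℝ) :
    ep θ P j hs v w * (∫ t in (0 : ℝ)..((n - 1 : ℕ) : ℝ), pl (As θ P j) t *
      (Real.exp (-(v * pl (As θ P j) t)) * mL w (pl (Bs P j ν hs) t)) * dpl (As θ P j) t) =
      -(cr (θ j) ν * ∫ x in GP n θ P, Xf θ P j x * Yf ν hs x * ex (v • θ j + w • ν) x) := by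
  have h1 := fr_gen hGR hG j ν hs v w (fun x => x) (fun y => y) (mL w) contDiff_id (mL_C1 w)
    (by intro y; exact mL_deriv w y)
  rw [← h1]
  congr 1
  apply intervalIntegral.integral_congr
  intro t _
  ring

/-! ## positivity -/

lemma GP_bdd (hGN : Stmt_GN) (hG : Gon n θ P ℓ) : Bornology.IsBounded (GP n θ P) :=
  (hGN n θ P ℓ hG).1.bdd _

lemma GP_closed : IsClosed (GP n θ P) := by
  unfold GP HP
  rw [show {x : R2 | ∀ i, dt (gth n θ i) x ≤ gh n θ P i} =
    ⋂ i, {x : R2 | dt (gth n θ i) x ≤ gh n θ P i} by ext x; simp]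
  exact isClosed_iInter fun i => isClosed_le (by fun_prop) continuous_const

lemma GP_compact (hGN : Stmt_GN) (hG : Gon n θ P ℓ) : IsCompact (GP n θ P) :=
  Metric.isCompact_of_isClosed_isBounded GP_closed (GP_bdd hGN hG)

lemma int_on (hGN : Stmt_GN) (hG : Gon n θ P ℓ) (f : R2 → ℝ) (hf : Continuous f) :
    IntegrableOn f (GP n θ P) :=
  hf.continuousOn.integrableOn_compact (GP_compact hGN hG)

lemma GP_meas_pos (hGN : Stmt_GN) (hG : Gon n θ P ℓ) : 0 < volume (GP n θ P) := by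
  obtain ⟨x, hx⟩ := (hGN n θ P ℓ hG).2.1
  have ho : IsOpen {x : R2 | ∀ i, dt (gth n θ i) x < gh n θ P i} := by
    rw [show {x : R2 | ∀ i, dt (gth n θ i) x < gh n θ P i} =
      ⋂ i, {x : R2 | dt (gth n θ i) x < gh n θ P i} by ext x; simp]
    exact isOpen_iInter_of_finite fun i => isOpen_lt (by fun_prop) continuous_const
  exact lt_of_lt_of_le (ho.measure_pos volume ⟨x, hx⟩)
    (measure_mono fun y hy i => (hy i).le)

lemma int_pos (hGN : Stmt_GN) (hG : Gon n θ P ℓ) (f : R2 → ℝ) (hf : Continuous f)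
    (h0 : ∀ x, 0 < f x) : 0 < ∫ x in GP n θ P, f x := by
  rw [integral_pos_iff_support_of_nonneg_ae
    (Eventually.of_forall fun x => (h0 x).le) (int_on hGN hG f hf)]
  have : Function.support f = univ := by
    ext x; simp [(h0 x).ne']
  rw [this, Measure.restrict_apply_univ]
  exact GP_meas_pos hGN hG

lemma fr_d_pos (hGR : Stmt_GR) (hGN : Stmt_GN) (hG : Gon n θ P ℓ) (j : ℕ) (ν : R2)
    (hs v w : ℝ) (hβ : 0 < cr (θ j) ν) :
    0 < pd v w (As θ P j) (Bs P j ν hs) (n - 1) := by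
  have h1 := green_path2 hGR hG j ν hs (mE (-v)) (fun x => Real.exp (-(-v * x)))
    (fun y => Real.exp (w * y)) (mE_C1 (-v)) (by fun_prop) (fun y => mE_deriv (-v) y) (mE_zero (-v))
  have h2 : pd v w (As θ P j) (Bs P j ν hs) (n - 1) =
      ∫ t in (0 : ℝ)..((n - 1 : ℕ) : ℝ), mE (-v) (pl (As θ P j) t) *
        Real.exp (w * pl (Bs P j ν hs) t) * dpl (Bs P j ν hs) t := by
    unfold pd
    apply intervalIntegral.integral_congr
    intro t _
    simp only
    congr 1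
    have h3 := exp_mE_neg v (pl (As θ P j) t)
    rw [Pool.LBM.Path.pe_eq, ← h3, div_eq_iff (by positivity)]
    have h4 : Real.exp (w * pl (Bs P j ν hs) t) * Real.exp (-(w * pl (Bs P j ν hs) t)) = 1 := by
      rw [← Real.exp_add]; simp
    linear_combination -(Real.exp (-(v * pl (As θ P j) t)) * mE (-v) (pl (As θ P j) t)) * h4
  rw [h2, h1]
  apply mul_pos hβ
  apply int_pos hGN hG
  · fun_prop
  · intro x; positivity

end

end Pool.LBM.SRC
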