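import Pool.Agent.Work.MP_b5407d_lbm_helper97.SRCc

/-! # The velocity field of a source -/

set_option autoImplicit false
set_option linter.unusedSimpArgs false

open MeasureTheory Set Filter Topology

namespace Pool.LBM.SRC

open Pool.LBM.Path (mE_deriv mL_deriv mE_cont mL_cont mul_ii prim_cont pe_cont pe_pos pe_ne pu_cont
  cont_pl exp_mE_neg mE_zero mL_zero pVx_cont pVy_cont)

/-- on a segment of the path -/
lemma seg_int (D : ℕ → ℝ) (g : ℝ → ℝ) (k : ℕ) (t : ℝ) (ht : t ∈ Icc (k : ℝ) (k + 1)) :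
    ∫ s in (k : ℝ)..t, g s * dpl D s = (∫ s in (k : ℝ)..t, g s) * (D (k + 1) - D k) := by
  rw [← intervalIntegral.integral_mul_const]
  apply intervalIntegral.integral_congr_ae
  have h0 : ∀ᵐ s ∂(volume : Measure ℝ), s ≠ (k + 1 : ℝ) := by
    simp [ae_iff, measure_singleton]
  filter_upwards [h0] with s hs hmem
  rw [uIoc_of_le ht.1] at hmem
  rw [dpl_eq D ⟨hmem.1.le, lt_of_le_of_ne (hmem.2.trans ht.2) hs⟩]

lemma pVx_seg (v w : ℝ) (a b : ℕ → ℝ) (C κ : ℝ) (k : ℕ) (t : ℝ) (ht : t ∈ Icc (k : ℝ) (k + 1)) :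
    pVx v w a b C κ t = pVx v w a b C κ k +
      (∫ s in (k : ℝ)..t, pu v w a b C s) * (a (k + 1) - a k) := by
  rw [← seg_int a _ k t ht]
  unfold pVx
  have h := mul_ii a (pu_cont v w a b C)
  rw [add_assoc, intervalIntegral.integral_add_adjacent_intervals (h _ _) (h _ _)]

lemma pVy_seg (v w : ℝ) (a b : ℕ → ℝ) (m : ℕ) (C η : ℝ) (k : ℕ) (t : ℝ)
    (ht : t ∈ Icc (k : ℝ) (k + 1)) :
    pVy v w a b m C η t = pVy v w a b m C η k +
      (∫ s in (k : ℝ)..t, pu v w a b C s) * (b (k + 1) - b k) := by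
  rw [← seg_int b _ k t ht]
  unfold pVy
  have h := mul_ii b (pu_cont v w a b C)
  rw [add_assoc, intervalIntegral.integral_add_adjacent_intervals (h _ _) (h _ _)]

/-- The velocity along the path in the base frame. -/
noncomputable def Wt (θ P : ℕ → R2) (n j : ℕ) (l : R2) (C κ η : ℝ) (t : ℝ) : R2 :=
  (-pVx (dt l (θ j)) (dt l (rt (θ j))) (As θ P j) (Bs P j (rt (θ j)) 0) C κ t) • θ j +
  (-pVy (dt l (θ j)) (dt l (rt (θ j))) (As θ P j) (Bs P j (rt (θ j)) 0) (n - 1) C η t) • rt (θ j)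

/-- the scalar field in the base frame -/
noncomputable def ub (θ P : ℕ → R2) (j : ℕ) (l : R2) (C : ℝ) (t : ℝ) : ℝ :=
  pu (dt l (θ j)) (dt l (rt (θ j))) (As θ P j) (Bs P j (rt (θ j)) 0) C t

section
variable {n : ℕ} {θ P : ℕ → R2} {ℓ : ℕ → ℝ}

lemma Wt_x (hG : Gon n θ P ℓ) (j : ℕ) (l : R2) (C κ η t : ℝ) :
    dt (θ j) (Wt θ P n j l C κ η t) =
      -pVx (dt l (θ j)) (dt l (rt (θ j))) (As θ P j) (Bs P j (rt (θ j)) 0) C κ t := by
  unfold Wt
  rw [dt_add, dt_smul, dt_smul, hG.unit, dt_self_rt]; ring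

lemma Wt_y (hG : Gon n θ P ℓ) (j : ℕ) (l : R2) (C κ η t : ℝ) :
    dt (rt (θ j)) (Wt θ P n j l C κ η t) =
      -pVy (dt l (θ j)) (dt l (rt (θ j))) (As θ P j) (Bs P j (rt (θ j)) 0) (n - 1) C η t := by
  unfold Wt
  rw [dt_add, dt_smul, dt_smul, rt_unit, hG.unit, dt_comm (rt (θ j)) (θ j), dt_self_rt]; ring

/-- decomposition of a vector -/
lemma decomp (hG : Gon n θ P ℓ) (j : ℕ) (x : R2) :
    x = dt (θ j) x • θ j + dt (rt (θ j)) x • rt (θ j) := by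
  have h := hG.unit j
  unfold dt at h
  ext
  · simp only [dt, rt, Prod.fst_add, Prod.smul_fst, smul_eq_mul]
    linear_combination (-x.1) * h
  · simp only [dt, rt, Prod.snd_add, Prod.smul_snd, smul_eq_mul]
    linear_combination (-x.2) * h

lemma dt_decomp (hG : Gon n θ P ℓ) (j : ℕ) (y x : R2) :
    dt y x = dt y (θ j) * dt (θ j) x + dt y (rt (θ j)) * dt (rt (θ j)) x := by
  conv_lhs => rw [decomp hG j x]
  rw [dt_add, dt_smul, dt_smul]; ring

/-- the edge vector -/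
lemma edge_vec (hG : Gon n θ P ℓ) (i : ℕ) : P (i + 1) - P i = ℓ i • rt (θ i) := by
  rw [hG.edge i]; abel

/-- the velocity moves along the edge direction on each segment -/
lemma Wt_seg (hG : Gon n θ P ℓ) (j : ℕ) (l : R2) (C κ η : ℝ) (k : ℕ) (t : ℝ)
    (ht : t ∈ Icc (k : ℝ) (k + 1)) :
    Wt θ P n j l C κ η t = Wt θ P n j l C κ η k +
      ((∫ s in (k : ℝ)..t, ub θ P j l C s) * ℓ (j + 1 + k)) • rt (θ (j + 1 + k)) := by
  have h1 : ∀ z : R2, dt z (Wt θ P n j l C κ η t) = dt z (Wt θ P n j l C κ η k +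
      ((∫ s in (k : ℝ)..t, ub θ P j l C s) * ℓ (j + 1 + k)) • rt (θ (j + 1 + k))) := by
    intro z
    rw [dt_decomp hG j z, dt_decomp hG j z (_ + _), dt_add, dt_add, Wt_x hG, Wt_x hG, Wt_y hG,
      Wt_y hG, pVx_seg _ _ _ _ _ _ k t ht, pVy_seg _ _ _ _ _ _ _ k t ht, As_step hG, Bs_step hG,
      dt_smul, dt_smul, dt_rt (θ j) (θ (j + 1 + k)), dt_rt (rt (θ j)) (θ (j + 1 + k))]
    unfold ub
    ring
  have e1 := h1 (1, 0)
  have e2 := h1 (0, 1)
  simp only [dt, one_mul, zero_mul, add_zero, zero_add] at e1 e2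
  exact Prod.ext e1 e2

/-- cross product with the edge: constant on the segment -/
lemma Wt_const (hG : Gon n θ P ℓ) (j : ℕ) (ν : R2) (hs : ℝ) (l : R2) (C κ η : ℝ) (k : ℕ) (t : ℝ)
    (ht : t ∈ Icc (k : ℝ) (k + 1)) :
    (-dt (θ j) (Wt θ P n j l C κ η t)) * (Bs P j ν hs (k + 1) - Bs P j ν hs k) -
      (-dt ν (Wt θ P n j l C κ η t)) * (As θ P j (k + 1) - As θ P j k) =
    cr (θ j) ν * (ℓ (j + 1 + k) * dt (θ (j + 1 + k)) (Wt θ P n j l C κ η k)) := by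
  have h0 : cr (θ j) ν * cr (Wt θ P n j l C κ η t) (ℓ (j + 1 + k) • rt (θ (j + 1 + k))) =
      cr (θ j) ν * (ℓ (j + 1 + k) * dt (θ (j + 1 + k)) (Wt θ P n j l C κ η k)) := by
    congr 1
    have h1 : cr (Wt θ P n j l C κ η t) (ℓ (j + 1 + k) • rt (θ (j + 1 + k))) =
        ℓ (j + 1 + k) * dt (θ (j + 1 + k)) (Wt θ P n j l C κ η t) := by
      simp only [cr, dt, rt, Prod.smul_fst, Prod.smul_snd, smul_eq_mul]; ring
    rw [h1, Wt_seg hG j l C κ η k t ht, dt_add, dt_smul, dt_self_rt]; ring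
  rw [← h0, ← lagr, Bs_step hG, As_step hG, dt_smul, dt_smul, dt_rt ν (θ (j + 1 + k)),
    dt_rt (θ j) (θ (j + 1 + k))]
  ring

/-- boundary integrals: the path edges -/
lemma bd_int (hG : Gon n θ P ℓ) (j : ℕ) (ν : R2) (hs v w : ℝ) (φ : ℝ → ℝ → ℝ)
    (hφ : Continuous fun q : ℝ × ℝ => φ q.1 q.2) (l : R2) (C κ η : ℝ) :
    ep θ P j hs v w * (∫ t in (0 : ℝ)..((n - 1 : ℕ) : ℝ),
      pe v w (As θ P j) (Bs P j ν hs) t * φ (pl (As θ P j) t) (pl (Bs P j ν hs) t) *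
        ((-dt (θ j) (Wt θ P n j l C κ η t)) * dpl (Bs P j ν hs) t -
          (-dt ν (Wt θ P n j l C κ η t)) * dpl (As θ P j) t)) =
    cr (θ j) ν * ∑ k ∈ Finset.range (n - 1),
      dt (θ (j + 1 + k)) (Wt θ P n j l C κ η k) *
        EI (fun x => φ (Xf θ P j x) (Yf ν hs x) * ex (v • θ j + w • ν) x) θ P ℓ (j + 1 + k) := by
  set g : ℕ → ℝ → ℝ := fun k t =>
    (φ (Xf θ P j (P (j + 1 + k) + ((t - k) * ℓ (j + 1 + k)) • rt (θ (j + 1 + k))))
        (Yf ν hs (P (j + 1 + k) + ((t - k) * ℓ (j + 1 + k)) • rt (θ (j + 1 + k)))) *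
      (Real.exp (-(v * Xf θ P j (P (j + 1 + k) + ((t - k) * ℓ (j + 1 + k)) • rt (θ (j + 1 + k))))
        - w * (Yf ν hs (P (j + 1 + k) + ((t - k) * ℓ (j + 1 + k)) • rt (θ (j + 1 + k))))))) *
      (cr (θ j) ν * (ℓ (j + 1 + k) * dt (θ (j + 1 + k)) (Wt θ P n j l C κ η k))) with hg
  have hc : ∀ k, Continuous (g k) := by
    intro k
    have h1 : Continuous (fun t : ℝ => (Xf θ P j (P (j + 1 + k) + ((t - k) * ℓ (j + 1 + k)) •
      rt (θ (j + 1 + k))), Yf ν hs (P (j + 1 + k) + ((t - k) * ℓ (j + 1 + k)) •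
      rt (θ (j + 1 + k))))) := by fun_prop
    have h2 := hφ.comp h1
    simp only [hg]
    refine (Continuous.mul h2 ?_).mul continuous_const
    fun_prop
  obtain ⟨_, _, _, h4⟩ := pint (fun t =>
      pe v w (As θ P j) (Bs P j ν hs) t * φ (pl (As θ P j) t) (pl (Bs P j ν hs) t) *
        ((-dt (θ j) (Wt θ P n j l C κ η t)) * dpl (Bs P j ν hs) t -
          (-dt ν (Wt θ P n j l C κ η t)) * dpl (As θ P j) t)) g (n - 1) hc (by
      intro k hk t ht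
      have ht' : t ∈ Icc (k : ℝ) (k + 1) := ⟨ht.1.le, ht.2.le⟩
      rw [dpl_eq _ ⟨ht.1.le, ht.2⟩, dpl_eq _ ⟨ht.1.le, ht.2⟩, Wt_const hG j ν hs l C κ η k t ht']
      unfold pe
      rw [path_X hG j k t ht', path_Y hG j ν hs k t ht']
      simp only [hg]
      ring)
  rw [h4, Finset.mul_sum, Finset.mul_sum]
  apply Finset.sum_congr rfl
  intro k _
  simp only [hg]
  rw [intervalIntegral.integral_mul_const]
  rw [← EI_path hG (fun x => φ (Xf θ P j x) (Yf ν hs x) * ex (v • θ j + w • ν) x) (j + 1 + k) k]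
  have h5 : (∫ t in (k : ℝ)..(k + 1), φ (Xf θ P j (P (j + 1 + k) + ((t - k) * ℓ (j + 1 + k)) •
        rt (θ (j + 1 + k)))) (Yf ν hs (P (j + 1 + k) + ((t - k) * ℓ (j + 1 + k)) •
        rt (θ (j + 1 + k)))) * ex (v • θ j + w • ν) (P (j + 1 + k) + ((t - k) * ℓ (j + 1 + k)) •
        rt (θ (j + 1 + k)))) = ep θ P j hs v w * ∫ t in (k : ℝ)..(k + 1),
      φ (Xf θ P j (P (j + 1 + k) + ((t - k) * ℓ (j + 1 + k)) • rt (θ (j + 1 + k))))
        (Yf ν hs (P (j + 1 + k) + ((t - k) * ℓ (j + 1 + k)) • rt (θ (j + 1 + k)))) *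
      (Real.exp (-(v * Xf θ P j (P (j + 1 + k) + ((t - k) * ℓ (j + 1 + k)) • rt (θ (j + 1 + k))))
        - w * (Yf ν hs (P (j + 1 + k) + ((t - k) * ℓ (j + 1 + k)) •
        rt (θ (j + 1 + k)))))) := by
    rw [← intervalIntegral.integral_const_mul]
    apply intervalIntegral.integral_congr
    intro t _
    simp only
    rw [ex_frame θ P j ν hs v w, ← Real.exp_add]
    rw [show ∀ x y : ℝ, -(v * x) + -(w * y) = -(v * x) - w * y by intro x y; ring]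
    ring
  rw [h5]; ring

end

end Pool.LBM.SRC
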