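import Pool.Agent.Work.MP_b5407d_lbm_helper97.SRCd

/-! # The velocity field of a source in a general frame -/

set_option autoImplicit false
set_option linter.unusedSimpArgs false

open MeasureTheory Set Filter Topology

namespace Pool.LBM.SRC

open Pool.LBM.Path (mE_deriv mL_deriv mE_cont mL_cont mul_ii prim_cont pe_cont pe_pos pe_ne pu_cont
  cont_pl exp_mE_neg mE_zero mL_zero pVx_cont pVy_cont mul_mE)

/-- the velocities of the vertices -/
noncomputable def Wj (θ P : ℕ → R2) (n j : ℕ) (l : R2) (C κ η : ℝ) (i : ℕ) : R2 :=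
  Wt θ P n j l C κ η (((i + (n - 1 - j)) % n : ℕ) : ℝ)

lemma Wj_path (θ P : ℕ → R2) (n j : ℕ) (l : R2) (C κ η : ℝ) (hj : j < n) (k : ℕ) (hk : k < n) :
    Wj θ P n j l C κ η (j + 1 + k) = Wt θ P n j l C κ η (k : ℝ) := by
  unfold Wj
  rw [show j + 1 + k + (n - 1 - j) = k + n by omega, Nat.add_mod_right, Nat.mod_eq_of_lt hk]

lemma Wj_per (θ P : ℕ → R2) (n j : ℕ) (l : R2) (C κ η : ℝ) (i : ℕ) :
    Wj θ P n j l C κ η (i + n) = Wj θ P n j l C κ η i := by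
  unfold Wj
  rw [show i + n + (n - 1 - j) = i + (n - 1 - j) + n by omega, Nat.add_mod_right]

lemma Wj_src (θ P : ℕ → R2) (n j : ℕ) (l : R2) (C κ η : ℝ) (hj : j < n) :
    Wj θ P n j l C κ η j = Wt θ P n j l C κ η ((n - 1 : ℕ) : ℝ) := by
  rw [← Wj_per, ← Wj_path θ P n j l C κ η hj (n - 1) (by omega)]
  congr 1; omega

section
variable {n : ℕ} {θ P : ℕ → R2} {ℓ : ℕ → ℝ}

/-- sums over all edges -/
lemma sumW (hG : Gon n θ P ℓ) (j : ℕ) (hj : j < n) (l : R2) (C κ η : ℝ) (f : R2 → ℝ) :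
    ∑ k ∈ Finset.range n, dt (θ k) (Wj θ P n j l C κ η k) * EI f θ P ℓ k =
      dt (θ j) (Wt θ P n j l C κ η ((n - 1 : ℕ) : ℝ)) * EI f θ P ℓ j +
      ∑ k ∈ Finset.range (n - 1), dt (θ (j + 1 + k)) (Wt θ P n j l C κ η k) *
        EI f θ P ℓ (j + 1 + k) := by
  rw [sum_split (n := n) (by omega) _ (by
    intro k; rw [hG.perθ, Wj_per, EI_per hG]) j, Wj_src _ _ _ _ _ _ _ _ hj]
  congr 1
  apply Finset.sum_congr rfl
  intro k hk
  rw [Finset.mem_range] at hk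
  rw [Wj_path _ _ _ _ _ _ _ _ hj k (by omega)]

/-- the source edge -/
lemma src_int (hG : Gon n θ P ℓ) (j : ℕ) (ν : R2) (hs v w : ℝ) (hβ : 0 < cr (θ j) ν)
    (φ : ℝ → ℝ → ℝ) :
    cr (θ j) ν * EI (fun x => φ (Xf θ P j x) (Yf ν hs x) * ex (v • θ j + w • ν) x) θ P ℓ j =
    ep θ P j hs v w * ∫ s in (Bs P j ν hs 0)..(Bs P j ν hs (n - 1)),
      φ 0 s * Real.exp (-(w * s)) := by
  have hm : Bs P j ν hs (n - 1) = Yf ν hs (P j) := by
    unfold Bs; rw [per_idx hG, hG.perP]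
  have h0 : Bs P j ν hs 0 = Yf ν hs (P j) - cr (θ j) ν * ℓ j := by
    unfold Bs Yf
    rw [add_zero, hG.edge j, dt_add, dt_smul, dt_rt']; ring
  have h1 : EI (fun x => φ (Xf θ P j x) (Yf ν hs x) * ex (v • θ j + w • ν) x) θ P ℓ j =
      ∫ s in (0 : ℝ)..(ℓ j), (fun y => ep θ P j hs v w * (φ 0 y * Real.exp (-(w * y))))
        (Yf ν hs (P j) - cr (θ j) ν * s) := by
    unfold EI
    apply intervalIntegral.integral_congr
    intro s _
    have e1 : Xf θ P j (P j + s • rt (θ j)) = 0 := by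
      unfold Xf; rw [dt_add, dt_smul, dt_self_rt]; ring
    have e2 : Yf ν hs (P j + s • rt (θ j)) = Yf ν hs (P j) - cr (θ j) ν * s := by
      unfold Yf; rw [dt_add, dt_smul, dt_rt']; ring
    simp only
    rw [ex_frame θ P j ν hs v w, e1, e2]
    simp
    ring
  rw [h1, intervalIntegral.integral_comp_sub_mul
    (fun y => ep θ P j hs v w * (φ 0 y * Real.exp (-(w * y)))) hβ.ne' (Yf ν hs (P j)), smul_eq_mul, ← mul_assoc,
    mul_inv_cancel₀ hβ.ne', one_mul, intervalIntegral.integral_const_mul, hm, h0]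
  simp

/-- The frame `ν` carries the field of the source. -/
structure Fr (n : ℕ) (θ P : ℕ → R2) (j : ℕ) (l : R2) (C κ η : ℝ) (ν : R2) (hs v w C' η' : ℝ) :
    Prop where
  tilt : l = v • θ j + w • ν
  pos : 0 < cr (θ j) ν
  u : ∀ t, pu v w (As θ P j) (Bs P j ν hs) C' t = ub θ P j l C t
  x : ∀ t, pVx v w (As θ P j) (Bs P j ν hs) C' κ t = -dt (θ j) (Wt θ P n j l C κ η t)
  y : ∀ t, pVy v w (As θ P j) (Bs P j ν hs) (n - 1) C' η' t = -dt ν (Wt θ P n j l C κ η t)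

variable {j : ℕ} {l : R2} {C κ η : ℝ} {ν : R2} {hs v w C' η' : ℝ}

lemma closing_x (hG : Gon n θ P ℓ) (hcl : pVx (dt l (θ j)) (dt l (rt (θ j))) (As θ P j)
    (Bs P j (rt (θ j)) 0) C κ ((n - 1 : ℕ) : ℝ) = -κ) :
    dt (θ j) (Wt θ P n j l C κ η ((n - 1 : ℕ) : ℝ)) = κ := by
  rw [Wt_x hG, hcl, neg_neg]

/-- volume identity in a frame -/
lemma fr_vol (hGR : Stmt_GR) (hPV : Stmt_PV) (hG : Gon n θ P ℓ) (hj : j < n)
    (hF : Fr n θ P j l C κ η ν hs v w C' η')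
    (hcl : dt (θ j) (Wt θ P n j l C κ η ((n - 1 : ℕ) : ℝ)) = κ) :
    cr (θ j) ν * (∑ k ∈ Finset.range n, dt (θ k) (Wj θ P n j l C κ η k) * EI (ex l) θ P ℓ k +
      (∫ x in GP n θ P, Xf θ P j x * ex l x) -
      pc v w (As θ P j) (Bs P j ν hs) (n - 1) C' κ η' * GJ n θ P l) =
    ep θ P j hs v w * (C' * pd v w (As θ P j) (Bs P j ν hs) (n - 1) -
      pP v w (As θ P j) (Bs P j ν hs) (n - 1)) := by
  have h0 := hPV (n - 1) (As θ P j) (Bs P j ν hs) v w C' κ η' (As_zero hG j) (As_end hG j)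
    (by rw [hF.x, hcl])
  have h1 := bd_int hG j ν hs v w (fun _ _ => 1) (by fun_prop) l C κ η
  have h2 := src_int hG j ν hs v w hF.pos (fun _ _ => 1)
  have h3 := fr_XJ hGR hG j ν hs v w
  have h4 := fr_J hGR hG j ν hs v w
  rw [← hF.tilt] at h1 h2 h3 h4
  simp only [one_mul, mul_one] at h1 h2
  simp only [hF.x, hF.y] at h0
  rw [sumW hG j hj, hcl]
  rw [← h0]
  linear_combination (-1) * h1 + κ * h2 + h3 + pc v w (As θ P j) (Bs P j ν hs) (n - 1) C' κ η' * h4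

/-- barycentre identity in a frame, second coordinate -/
lemma fr_bary (hGR : Stmt_GR) (hPY : Stmt_PY) (hG : Gon n θ P ℓ) (hj : j < n)
    (hF : Fr n θ P j l C κ η ν hs v w C' η')
    (hcl : dt (θ j) (Wt θ P n j l C κ η ((n - 1 : ℕ) : ℝ)) = κ) :
    cr (θ j) ν * (∑ k ∈ Finset.range n, dt (θ k) (Wj θ P n j l C κ η k) *
        EI (fun x => Yf ν hs x * ex l x) θ P ℓ k +
      (∫ x in GP n θ P, Xf θ P j x * Yf ν hs x * ex l x) -
      pc v w (As θ P j) (Bs P j ν hs) (n - 1) C' κ η' *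
        (∫ x in GP n θ P, Yf ν hs x * ex l x)) =
    ep θ P j hs v w * (pJ v w (As θ P j) (Bs P j ν hs) (n - 1) * η' +
      (∫ t in (0 : ℝ)..((n - 1 : ℕ) : ℝ), pL v w (As θ P j) (Bs P j ν hs) t *
        ub θ P j l C t * dpl (Bs P j ν hs) t)) := by
  have h0 := hPY (n - 1) (As θ P j) (Bs P j ν hs) v w C' κ η' (As_zero hG j) (As_end hG j)
    (by rw [hF.x, hcl])
  have h1 := bd_int hG j ν hs v w (fun _ y => y) (by fun_prop) l C κ η
  have h2 := src_int hG j ν hs v w hF.pos (fun _ y => y)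
  have h3 := fr_XY hGR hG j ν hs v w
  have h4 := fr_Y hGR hG j ν hs v w
  rw [← hF.tilt] at h1 h2 h3 h4
  simp only [hF.x, hF.y, hF.u] at h0
  rw [sumW hG j hj, hcl]
  rw [← h0]
  linear_combination (-1) * h1 + κ * h2 + h3 -
    pc v w (As θ P j) (Bs P j ν hs) (n - 1) C' κ η' * h4

/-- barycentre identity, first coordinate (base frame is enough) -/
lemma fr_barx (hGR : Stmt_GR) (hPX : Stmt_PX) (hG : Gon n θ P ℓ) (hj : j < n)
    (hF : Fr n θ P j l C κ η ν hs v w C' η')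
    (hcl : dt (θ j) (Wt θ P n j l C κ η ((n - 1 : ℕ) : ℝ)) = κ) :
    cr (θ j) ν * (∑ k ∈ Finset.range n, dt (θ k) (Wj θ P n j l C κ η k) *
        EI (fun x => Xf θ P j x * ex l x) θ P ℓ k +
      (∫ x in GP n θ P, Xf θ P j x ^ 2 * ex l x) -
      pc v w (As θ P j) (Bs P j ν hs) (n - 1) C' κ η' *
        (∫ x in GP n θ P, Xf θ P j x * ex l x)) =
    ep θ P j hs v w * ((∫ t in (0 : ℝ)..((n - 1 : ℕ) : ℝ), mL v (pl (As θ P j) t) *
        pu v w (As θ P j) (Bs P j ν hs) C' t * dpl (Bs P j ν hs) t) -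
      (∫ t in (0 : ℝ)..((n - 1 : ℕ) : ℝ), pq v w (As θ P j) (Bs P j ν hs) t *
        pVx v w (As θ P j) (Bs P j ν hs) C' κ t * dpl (As θ P j) t)) := by
  have h0 := hPX (n - 1) (As θ P j) (Bs P j ν hs) v w C' κ η' (As_zero hG j) (As_end hG j)
    (by rw [hF.x, hcl])
  have h1 := bd_int hG j ν hs v w (fun x _ => x) (by fun_prop) l C κ η
  have h2 := src_int hG j ν hs v w hF.pos (fun x _ => x)
  have h3 := fr_X2 hGR hG j ν hs v w
  have h4 := fr_XJ hGR hG j ν hs v w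
  rw [← hF.tilt] at h1 h2 h3 h4
  simp only [zero_mul, intervalIntegral.integral_zero, mul_zero] at h2
  have h5 : (∫ t in (0 : ℝ)..((n - 1 : ℕ) : ℝ), pe v w (As θ P j) (Bs P j ν hs) t *
      pl (As θ P j) t * (pVx v w (As θ P j) (Bs P j ν hs) C' κ t * dpl (Bs P j ν hs) t -
        pVy v w (As θ P j) (Bs P j ν hs) (n - 1) C' η' t * dpl (As θ P j) t)) =
      ∫ t in (0 : ℝ)..((n - 1 : ℕ) : ℝ), pe v w (As θ P j) (Bs P j ν hs) t *
      pl (As θ P j) t * ((-dt (θ j) (Wt θ P n j l C κ η t)) * dpl (Bs P j ν hs) t -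
        (-dt ν (Wt θ P n j l C κ η t)) * dpl (As θ P j) t) := by
    simp only [hF.x, hF.y]
  rw [h5] at h0
  rw [sumW hG j hj, hcl]
  rw [← h0]
  linear_combination (-1) * h1 + κ * h2 + h3 -
    pc v w (As θ P j) (Bs P j ν hs) (n - 1) C' κ η' * h4

end

end Pool.LBM.SRC
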