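import Pool.Agent.Work.MP_b5407d_lbm_helper97.SRCe

/-! # Frame change, masses -/

set_option autoImplicit false
set_option linter.unusedSimpArgs false

open MeasureTheory Set Filter Topology

namespace Pool.LBM.SRC

open Pool.LBM.Path (mE_deriv mL_deriv mE_cont mL_cont mul_ii prim_cont pe_cont pe_pos pe_ne pu_cont
  cont_pl exp_mE_neg mE_zero mL_zero pVx_cont pVy_cont mul_mE)

section
variable {n : ℕ} {θ P : ℕ → R2} {ℓ : ℕ → ℝ}

/-- second coordinates in a frame in terms of the base frame -/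
lemma Bs_frame (hG : Gon n θ P ℓ) (j : ℕ) (ν : R2) (hs : ℝ) :
    Bs P j ν hs = fun k => (hs - dt ν (θ j) * dt (θ j) (P j)) + dt ν (θ j) * As θ P j k +
      cr (θ j) ν * Bs P j (rt (θ j)) 0 k := by
  funext k
  unfold Bs Yf As Xf
  rw [dt_decomp hG j ν (P (j + 1 + k)), dt_rt' (θ j) ν]
  ring

lemma v0_eq (hG : Gon n θ P ℓ) (j : ℕ) (ν : R2) (v w : ℝ) :
    dt (v • θ j + w • ν) (θ j) = v + w * dt ν (θ j) := by
  rw [add_dt, smul_dt, smul_dt, hG.unit]; ring

lemma w0_eq (j : ℕ) (ν : R2) (v w : ℝ) :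
    dt (v • θ j + w • ν) (rt (θ j)) = w * cr (θ j) ν := by
  rw [add_dt, smul_dt, smul_dt, dt_self_rt, dt_rt']; ring

/-- ratio of the weights -/
noncomputable def sr (θ P : ℕ → R2) (j : ℕ) (ν : R2) (hs w : ℝ) : ℝ :=
  Real.exp (-(w * (hs - dt ν (θ j) * dt (θ j) (P j))))

lemma pe_frame (hG : Gon n θ P ℓ) (j : ℕ) (ν : R2) (hs v w t : ℝ) :
    pe v w (As θ P j) (Bs P j ν hs) t = sr θ P j ν hs w *
      pe (dt (v • θ j + w • ν) (θ j)) (dt (v • θ j + w • ν) (rt (θ j))) (As θ P j)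
        (Bs P j (rt (θ j)) 0) t := by
  unfold pe sr
  rw [← Real.exp_add, v0_eq hG, w0_eq, Bs_frame hG j ν hs, pl_lin]
  congr 1
  ring

lemma sr_pos (j : ℕ) (ν : R2) (hs w : ℝ) : 0 < sr θ P j ν hs w := Real.exp_pos _

lemma pX_frame (hG : Gon n θ P ℓ) (j : ℕ) (ν : R2) (hs v w t : ℝ) :
    pX v w (As θ P j) (Bs P j ν hs) t = sr θ P j ν hs w *
      pX (dt (v • θ j + w • ν) (θ j)) (dt (v • θ j + w • ν) (rt (θ j))) (As θ P j)
        (Bs P j (rt (θ j)) 0) t := by
  unfold pX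
  rw [← intervalIntegral.integral_const_mul]
  apply intervalIntegral.integral_congr
  intro s _
  simp only
  rw [pe_frame hG]; ring

lemma pu_frame (hG : Gon n θ P ℓ) (j : ℕ) (ν : R2) (hs v w C t : ℝ) :
    pu v w (As θ P j) (Bs P j ν hs) (sr θ P j ν hs w * C) t = ub θ P j (v • θ j + w • ν) C t := by
  unfold ub pu
  rw [pe_frame hG, pX_frame hG, ← mul_sub, mul_div_mul_left _ _ (sr_pos j ν hs w).ne']

lemma fr_exists (hG : Gon n θ P ℓ) (j : ℕ) (ν : R2) (hs v w C κ η : ℝ) (hβ : 0 < cr (θ j) ν)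
    (hcl : dt (θ j) (Wt θ P n j (v • θ j + w • ν) C κ η ((n - 1 : ℕ) : ℝ)) = κ) :
    Fr n θ P j (v • θ j + w • ν) C κ η ν hs v w (sr θ P j ν hs w * C)
      (-(dt ν (θ j) * κ) + cr (θ j) ν * η) := by
  have hx : ∀ t, pVx v w (As θ P j) (Bs P j ν hs) (sr θ P j ν hs w * C) κ t =
      -dt (θ j) (Wt θ P n j (v • θ j + w • ν) C κ η t) := by
    intro t
    rw [Wt_x hG, neg_neg]
    unfold pVx
    simp only [pu_frame hG]
    rfl
  refine ⟨rfl, hβ, fun t => pu_frame hG j ν hs v w C t, hx, ?_⟩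
  intro t
  rw [dt_decomp hG j ν (Wt θ P n j (v • θ j + w • ν) C κ η t), Wt_y hG, dt_rt' (θ j) ν]
  unfold pVy
  simp only [pu_frame hG]
  have hu : Continuous (ub θ P j (v • θ j + w • ν) C) := pu_cont _ _ _ _ _
  have h1 : (∫ s in ((n - 1 : ℕ) : ℝ)..t, ub θ P j (v • θ j + w • ν) C s * dpl (Bs P j ν hs) s) =
      dt ν (θ j) * (∫ s in ((n - 1 : ℕ) : ℝ)..t, ub θ P j (v • θ j + w • ν) C s *
        dpl (As θ P j) s) + cr (θ j) ν * (∫ s in ((n - 1 : ℕ) : ℝ)..t,
        ub θ P j (v • θ j + w • ν) C s * dpl (Bs P j (rt (θ j)) 0) s) := by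
    rw [← intervalIntegral.integral_const_mul, ← intervalIntegral.integral_const_mul,
      ← intervalIntegral.integral_add ((mul_ii _ hu _ _).const_mul _)
        ((mul_ii _ hu _ _).const_mul _)]
    apply intervalIntegral.integral_congr
    intro s _
    simp only
    rw [Bs_frame hG j ν hs, dpl_lin]; ring
  have h2 : (∫ s in ((n - 1 : ℕ) : ℝ)..t, ub θ P j (v • θ j + w • ν) C s *
        dpl (As θ P j) s) = κ - dt (θ j) (Wt θ P n j (v • θ j + w • ν) C κ η t) := by
    have h3 := mul_ii (As θ P j) hu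
    have h4 := intervalIntegral.integral_add_adjacent_intervals (h3 0 ((n - 1 : ℕ) : ℝ))
      (h3 ((n - 1 : ℕ) : ℝ) t)
    have h5 := hcl
    rw [Wt_x hG] at h5 ⊢
    unfold pVx at h5 ⊢
    unfold ub at h4 ⊢
    linear_combination h4 + h5
  rw [h1, h2]
  unfold ub
  ring

lemma pc_frame (hG : Gon n θ P ℓ) (j : ℕ) (ν : R2) (hs v w C κ η : ℝ) :
    pc v w (As θ P j) (Bs P j ν hs) (n - 1) (sr θ P j ν hs w * C) κ
      (-(dt ν (θ j) * κ) + cr (θ j) ν * η) =
    pc (dt (v • θ j + w • ν) (θ j)) (dt (v • θ j + w • ν) (rt (θ j))) (As θ P j)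
      (Bs P j (rt (θ j)) 0) (n - 1) C κ η := by
  unfold pc
  rw [pu_frame hG, v0_eq hG, w0_eq]
  unfold ub
  rw [v0_eq hG, w0_eq]
  ring

/-- the base frame -/
lemma base_l (hG : Gon n θ P ℓ) (j : ℕ) (l : R2) :
    l = dt l (θ j) • θ j + dt l (rt (θ j)) • rt (θ j) := by
  conv_lhs => rw [decomp hG j l]
  rw [dt_comm (θ j) l, dt_comm (rt (θ j)) l]

lemma base_cr (hG : Gon n θ P ℓ) (j : ℕ) : cr (θ j) (rt (θ j)) = 1 := by
  rw [cr_rt, hG.unit]

lemma fr_base (hG : Gon n θ P ℓ) (j : ℕ) (l : R2) (C κ η : ℝ) :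
    Fr n θ P j l C κ η (rt (θ j)) 0 (dt l (θ j)) (dt l (rt (θ j))) C η where
  tilt := base_l hG j l
  pos := by rw [base_cr hG]; exact one_pos
  u := fun t => rfl
  x := fun t => by rw [Wt_x hG, neg_neg]
  y := fun t => by rw [Wt_y hG, neg_neg]

/-- the constant along the path -/
lemma ub_const (hPC : Stmt_PC) (hG : Gon n θ P ℓ) (j : ℕ) (l : R2) (C κ η : ℝ)
    (hcl : dt (θ j) (Wt θ P n j l C κ η ((n - 1 : ℕ) : ℝ)) = κ) (t : ℝ)
    (ht : t ∈ Icc (0 : ℝ) ((n - 1 : ℕ) : ℝ)) :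
    ub θ P j l C t = pc (dt l (θ j)) (dt l (rt (θ j))) (As θ P j)
      (Bs P j (rt (θ j)) 0) (n - 1) C κ η - pl (As θ P j) t - dt l (Wt θ P n j l C κ η t) := by
  have h := (hPC (n - 1) (As θ P j) (Bs P j (rt (θ j)) 0) (dt l (θ j)) (dt l (rt (θ j))) C κ η
    (As_zero hG j) (As_end hG j)).2.1 (by rw [Wt_x hG] at hcl; linarith) t ht
  rw [dt_decomp hG j l (Wt θ P n j l C κ η t), Wt_x hG, Wt_y hG]
  unfold ub
  linarith

/-- masses of the edges of the path -/
lemma mass_path (hPC : Stmt_PC) (hG : Gon n θ P ℓ) (j : ℕ) (hj : j < n) (l : R2) (C κ η : ℝ)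
    (hcl : dt (θ j) (Wt θ P n j l C κ η ((n - 1 : ℕ) : ℝ)) = κ) (k : ℕ) (hk : k < n - 1) :
    dms θ P ℓ l (-θ j) (Wj θ P n j l C κ η) (j + 1 + k) =
      (pc (dt l (θ j)) (dt l (rt (θ j))) (As θ P j) (Bs P j (rt (θ j)) 0) (n - 1) C κ η -
        dt (θ j) (P j)) * EI (ex l) θ P ℓ (j + 1 + k) := by
  set c := pc (dt l (θ j)) (dt l (rt (θ j))) (As θ P j) (Bs P j (rt (θ j)) 0) (n - 1) C κ η with hc
  set i := j + 1 + k with hi
  have hW1 : Wj θ P n j l C κ η i = Wt θ P n j l C κ η k := Wj_path _ _ _ _ _ _ _ _ hj k (by omega)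
  have hW2 : Wj θ P n j l C κ η (i + 1) = Wt θ P n j l C κ η ((k + 1 : ℕ) : ℝ) := by
    rw [show i + 1 = j + 1 + (k + 1) by omega]
    exact Wj_path _ _ _ _ _ _ _ _ hj (k + 1) (by omega)
  have hu : Continuous (ub θ P j l C) := pu_cont _ _ _ _ _
  set S : ℝ → ℝ := fun t => ∫ s in (k : ℝ)..t, ub θ P j l C s with hS
  have hS' : ∀ t, HasDerivAt S (ub θ P j l C t) t := fun t =>
    intervalIntegral.integral_hasDerivAt_right (hu.intervalIntegrable _ _)
      hu.stronglyMeasurable.stronglyMeasurableAtFilter hu.continuousAt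
  have hw2 : Wt θ P n j l C κ η ((k + 1 : ℕ) : ℝ) - Wt θ P n j l C κ η k =
      (S (k + 1) * ℓ i) • rt (θ i) := by
    have := Wt_seg hG j l C κ η k ((k + 1 : ℕ) : ℝ) (by push_cast; exact ⟨by linarith, le_rfl⟩)
    rw [this]
    push_cast
    simp [hS, hi]
  -- the function along the edge
  set γ : ℝ → R2 := fun t => P i + ((t - k) * ℓ i) • rt (θ i) with hγ
  have hE : ∀ t, HasDerivAt (fun t => ex l (γ t)) (ex l (γ t) * (ℓ i * dt l (rt (θ i)))) t := by
    intro t
    have h1 : HasDerivAt (fun t : ℝ => dt l (P i) + (t - k) * ℓ i * dt l (rt (θ i)))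
        (ℓ i * dt l (rt (θ i))) t := by
      have := (((hasDerivAt_id t).sub_const (k : ℝ)).mul_const (ℓ i * dt l (rt (θ i)))).const_add
        (dt l (P i))
      simpa [mul_assoc] using this
    have h2 : (fun t => ex l (γ t)) = fun t : ℝ => Real.exp (dt l (P i) +
        (t - k) * ℓ i * dt l (rt (θ i))) := by
      funext t
      simp only [ex, hγ, dt_add, dt_smul]
    rw [h2]
    have h3 := h1.exp
    refine h3.congr_deriv ?_
    simp only [ex, hγ, dt_add, dt_smul]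
  have hkey : ex l (γ (k + 1)) * S (k + 1) = ∫ t in (k : ℝ)..(k + 1),
      ex l (γ t) * (c - Xf θ P j (γ t) - dt l (Wt θ P n j l C κ η k)) := by
    have hd : ∀ t ∈ uIcc (k : ℝ) (k + 1), HasDerivAt (fun t => ex l (γ t) * S t)
        (ex l (γ t) * (ℓ i * dt l (rt (θ i))) * S t + ex l (γ t) * ub θ P j l C t) t :=
      fun t _ => (hE t).mul (hS' t)
    have hγc : Continuous γ := by simp only [hγ]; fun_prop
    have hSc : Continuous S := continuous_iff_continuousAt.2 fun t => (hS' t).continuousAt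
    have hci : Continuous (fun t => ex l (γ t) * (ℓ i * dt l (rt (θ i))) * S t +
        ex l (γ t) * ub θ P j l C t) := by
      have := (ex_cont l).comp hγc
      exact ((this.mul continuous_const).mul hSc).add (this.mul hu)
    have h1 := intervalIntegral.integral_eq_sub_of_hasDerivAt hd (hci.intervalIntegrable _ _)
    have h2 : S k = 0 := by simp [hS]
    rw [h2, mul_zero, sub_zero] at h1
    rw [← h1]
    apply intervalIntegral.integral_congr
    intro t ht
    rw [uIcc_of_le (by linarith)] at ht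
    have ht' : t ∈ Icc (0 : ℝ) ((n - 1 : ℕ) : ℝ) := by
      refine ⟨le_trans (Nat.cast_nonneg k) ht.1, ht.2.trans ?_⟩
      have : ((k + 1 : ℕ) : ℝ) ≤ ((n - 1 : ℕ) : ℝ) := by exact_mod_cast hk
      push_cast at this ⊢
      exact this
    have h3 := ub_const hPC hG j l C κ η hcl t ht'
    rw [Wt_seg hG j l C κ η k t ht, dt_add, dt_smul, path_X hG j k t ht] at h3
    simp only
    rw [h3]
    simp only [hS, hγ, hi, hc]
    ring
  have hP : γ (k + 1) = P (i + 1) := by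
    simp only [hγ]
    rw [hG.edge i]; congr 2; ring
  unfold dms
  rw [hW1, hW2, hw2, dt_smul, rt_unit, hG.unit, mul_one, ← hP]
  have h5 : ex l (γ (k + 1)) * (S (k + 1) * ℓ i) =
      EI (fun x => ex l x * (c - Xf θ P j x - dt l (Wt θ P n j l C κ η k))) θ P ℓ i := by
    rw [← EI_path hG (fun x => ex l x * (c - Xf θ P j x - dt l (Wt θ P n j l C κ η k))) i k,
      ← mul_assoc, hkey]
    simp only [hγ]
    ring
  rw [h5]
  unfold EI
  rw [← intervalIntegral.integral_add, ← intervalIntegral.integral_const_mul]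
  · apply intervalIntegral.integral_congr
    intro s _
    simp only [neg_dt]
    unfold Xf
    ring
  · apply Continuous.intervalIntegrable
    have : Continuous (fun s : ℝ => P i + s • rt (θ i)) := by fun_prop
    have h6 : Continuous (fun x : R2 => ex l x * (c - Xf θ P j x -
      dt l (Wt θ P n j l C κ η k))) := by fun_prop
    exact h6.comp this
  · apply Continuous.intervalIntegrable
    have : Continuous (fun s : ℝ => P i + s • rt (θ i)) := by fun_prop
    have h6 : Continuous (fun x : R2 => ex l x * (dt (-θ j) x +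
      dt l (Wt θ P n j l C κ η k))) := by fun_prop
    exact h6.comp this

end

end Pool.LBM.SRC
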